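import Mathlib

set_option autoImplicit false

namespace Pool.Agent.H68.WL

section Gen

variable {ι : Type*} [Fintype ι] [DecidableEq ι] {T : ι → Type*} [∀ i, Group (T i)]

theorem exists_labels [∀ i, Finite (T i)] {d L : ℕ} (x : ∀ i, Fin d → T i)
    (hx : ∀ i, Subgroup.closure (Set.range (x i)) = ⊤)
    (hL : ∀ i, Fintype.card ι ≤ Nat.card (T i) ^ L) :
    ∃ y : ∀ i, Fin L → T i, ∀ i j, i ≠ j → ∀ φ : T j ≃* T i, (∀ a, φ (x j a) = x i a) →
      ∃ l, φ (y j l) ≠ y i l := by
  classical
  have key : ∀ S : Finset ι, ∃ y : ∀ i, Fin L → T i, ∀ i ∈ S, ∀ j ∈ S, i ≠ j →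
      ∀ φ : T j ≃* T i, (∀ a, φ (x j a) = x i a) → ∃ l, φ (y j l) ≠ y i l := by
    intro S
    induction S using Finset.induction_on with
    | empty => exact ⟨fun _ _ => 1, by simp⟩
    | insert a S ha ih =>
      obtain ⟨y, hy⟩ := ih
      haveI : Fintype (T a) := Fintype.ofFinite _
      let forb : ι → (Fin L → T a) := fun j =>
        if h : ∃ φ : T j ≃* T a, ∀ b, φ (x j b) = x a b then fun l => h.choose (y j l)
        else fun _ => 1
      have huniq : ∀ j, ∀ φ : T j ≃* T a, (∀ b, φ (x j b) = x a b) →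
          forb j = fun l => φ (y j l) := by
        intro j φ hφ
        have hex : ∃ φ : T j ≃* T a, ∀ b, φ (x j b) = x a b := ⟨φ, hφ⟩
        have h1 : forb j = fun l => hex.choose (y j l) := by
          simp only [forb]
          rw [dif_pos hex]
        rw [h1]
        have h2 : (hex.choose : T j →* T a) = (φ : T j →* T a) := by
          apply MonoidHom.eq_of_eqOn_dense (hx j)
          rintro _ ⟨b, rfl⟩
          have := hex.choose_spec b
          simp [this, hφ b]
        funext l
        exact DFunLike.congr_fun h2 (y j l)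
      have hcard : (S.image forb).card < Fintype.card (Fin L → T a) := by
        calc (S.image forb).card ≤ S.card := Finset.card_image_le
          _ < Fintype.card ι := by
            rw [← Finset.card_univ]
            exact Finset.card_lt_card ⟨Finset.subset_univ _, fun h => ha (h (Finset.mem_univ a))⟩
          _ ≤ Nat.card (T a) ^ L := hL a
          _ = Fintype.card (Fin L → T a) := by
            rw [Fintype.card_fun, Fintype.card_fin, Nat.card_eq_fintype_card]
      obtain ⟨w, -, hw⟩ := Finset.exists_mem_notMem_of_card_lt_card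
        (s := S.image forb) (t := Finset.univ) (by simpa using hcard)
      refine ⟨Function.update y a w, ?_⟩
      have hne : ∀ j ∈ S, j ≠ a := fun j hj h => ha (h ▸ hj)
      have hSa : ∀ j ∈ S, ∀ φ : T j ≃* T a, (∀ b, φ (x j b) = x a b) →
          ∃ l, φ (y j l) ≠ w l := by
        intro j hj φ hφ
        by_contra hcon
        push Not at hcon
        apply hw
        rw [Finset.mem_image]
        exact ⟨j, hj, by rw [huniq j φ hφ]; funext l; exact hcon l⟩
      intro i hi j hj hij φ hφ
      rw [Finset.mem_insert] at hi hj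
      rcases hi with rfl | hi
      · rcases hj with rfl | hj
        · exact absurd rfl hij
        · obtain ⟨l, hl⟩ := hSa j hj φ hφ
          refine ⟨l, ?_⟩
          rw [Function.update_self, Function.update_of_ne (hne j hj)]
          exact hl
      · rcases hj with rfl | hj
        · obtain ⟨l, hl⟩ := hSa i hi φ.symm (fun b => by rw [← hφ b]; simp)
          refine ⟨l, ?_⟩
          rw [Function.update_self, Function.update_of_ne (hne i hi)]
          intro h
          apply hl
          rw [← h]; simp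
        · obtain ⟨l, hl⟩ := hy i hi j hj hij φ hφ
          refine ⟨l, ?_⟩
          rw [Function.update_of_ne (hne j hj), Function.update_of_ne (hne i hi)]
          exact hl
  obtain ⟨y, hy⟩ := key Finset.univ
  exact ⟨y, fun i j hij => hy i (Finset.mem_univ i) j (Finset.mem_univ j) hij⟩

variable [∀ i, IsSimpleGroup (T i)]

theorem exists_comm_ne {S : Type*} [Group S] [IsSimpleGroup S] (hna : ∃ a b : S, a * b ≠ b * a)
    {a : S} (ha : a ≠ 1) : ∃ b : S, a * b ≠ b * a := by
  by_contra hcon
  push Not at hcon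
  have h1 : a ∈ Subgroup.center S := by
    rw [Subgroup.mem_center_iff]
    intro g
    exact (hcon g).symm
  rcases (inferInstance : (Subgroup.center S).Normal).eq_bot_or_eq_top with h | h
  · rw [h, Subgroup.mem_bot] at h1
    exact ha h1
  · obtain ⟨b, c, hbc⟩ := hna
    have : c ∈ Subgroup.center S := by rw [h]; exact Subgroup.mem_top _
    rw [Subgroup.mem_center_iff] at this
    exact hbc (this b)

theorem proj_surj {d : ℕ} (x : ∀ i, Fin d → T i)
    (hx : ∀ i, Subgroup.closure (Set.range (x i)) = ⊤) (X : Subgroup (∀ i, T i))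
    (hX : ∀ a, (fun i => x i a) ∈ X) (i : ι) (t : T i) : ∃ z ∈ X, z i = t := by
  have h1 : X.map (Pi.evalMonoidHom T i) = ⊤ := by
    rw [eq_top_iff, ← hx i, Subgroup.closure_le]
    rintro _ ⟨a, rfl⟩
    exact ⟨_, hX a, rfl⟩
  have h2 : t ∈ X.map (Pi.evalMonoidHom T i) := by rw [h1]; exact Subgroup.mem_top _
  obtain ⟨z, hz, hzt⟩ := h2
  exact ⟨z, hz, hzt⟩

theorem sep_one {d L : ℕ} (x : ∀ i, Fin d → T i)
    (hx : ∀ i, Subgroup.closure (Set.range (x i)) = ⊤) (y : ∀ i, Fin L → T i)
    (hy : ∀ i j, i ≠ j → ∀ φ : T j ≃* T i, (∀ a, φ (x j a) = x i a) →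
      ∃ l, φ (y j l) ≠ y i l) (X : Subgroup (∀ i, T i))
    (hX : ∀ a, (fun i => x i a) ∈ X) (hY : ∀ l, (fun i => y i l) ∈ X)
    (i j : ι) (hij : i ≠ j) : ∃ z ∈ X, z i ≠ 1 ∧ z j = 1 := by
  by_contra hcon
  push Not at hcon
  let f : X →* T j := (Pi.evalMonoidHom T j).comp X.subtype
  let g : X →* T i := (Pi.evalMonoidHom T i).comp X.subtype
  have hf : Function.Surjective f := by
    intro t
    obtain ⟨z, hz, hzt⟩ := proj_surj x hx X hX j t
    exact ⟨⟨z, hz⟩, hzt⟩
  have hg : Function.Surjective g := by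
    intro t
    obtain ⟨z, hz, hzt⟩ := proj_surj x hx X hX i t
    exact ⟨⟨z, hz⟩, hzt⟩
  have hker : f.ker ≤ g.ker := by
    intro z hz
    rw [MonoidHom.mem_ker] at hz ⊢
    by_contra hne
    exact hcon z.1 z.2 hne hz
  let φ : T j →* T i := f.liftOfSurjective hf ⟨g, hker⟩
  have hφ : ∀ z : X, φ (f z) = g z := by
    intro z
    exact MonoidHom.liftOfRightInverse_comp_apply f _ _ ⟨g, hker⟩ z
  have hsurj : Function.Surjective φ := by
    intro t
    obtain ⟨z, hz⟩ := hg t
    exact ⟨f z, by rw [hφ, hz]⟩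
  have hinj : Function.Injective φ := by
    rw [← MonoidHom.ker_eq_bot_iff]
    rcases (inferInstance : φ.ker.Normal).eq_bot_or_eq_top with h | h
    · exact h
    · exfalso
      obtain ⟨t, ht⟩ := exists_ne (1 : T i)
      obtain ⟨u, hu⟩ := hsurj t
      have : u ∈ φ.ker := by rw [h]; exact Subgroup.mem_top _
      rw [MonoidHom.mem_ker] at this
      exact ht (by rw [← hu, this])
  obtain ⟨l, hl⟩ := hy i j hij (MulEquiv.ofBijective φ ⟨hinj, hsurj⟩)
    (fun a => hφ ⟨_, hX a⟩)
  exact hl (hφ ⟨_, hY l⟩)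

theorem sep_all {d L : ℕ} (x : ∀ i, Fin d → T i)
    (hx : ∀ i, Subgroup.closure (Set.range (x i)) = ⊤) (y : ∀ i, Fin L → T i)
    (hy : ∀ i j, i ≠ j → ∀ φ : T j ≃* T i, (∀ a, φ (x j a) = x i a) →
      ∃ l, φ (y j l) ≠ y i l) (X : Subgroup (∀ i, T i))
    (hX : ∀ a, (fun i => x i a) ∈ X) (hY : ∀ l, (fun i => y i l) ∈ X)
    (i j : ι) (hij : i ≠ j) (t : T i) : ∃ z ∈ X, z i = t ∧ z j = 1 := by
  let K : Subgroup (T i) :=
    { carrier := {t | ∃ z ∈ X, z i = t ∧ z j = 1}
      one_mem' := ⟨1, X.one_mem, rfl, rfl⟩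
      mul_mem' := by
        rintro a b ⟨z, hz, rfl, hz1⟩ ⟨w, hw, rfl, hw1⟩
        exact ⟨z * w, X.mul_mem hz hw, rfl, by simp [hz1, hw1]⟩
      inv_mem' := by
        rintro a ⟨z, hz, rfl, hz1⟩
        exact ⟨z⁻¹, X.inv_mem hz, rfl, by simp [hz1]⟩ }
  have hK : K.Normal := by
    constructor
    rintro a ⟨z, hz, rfl, hz1⟩ g
    obtain ⟨w, hw, rfl⟩ := proj_surj x hx X hX i g
    exact ⟨w * z * w⁻¹, X.mul_mem (X.mul_mem hw hz) (X.inv_mem hw), rfl, by simp [hz1]⟩
  rcases hK.eq_bot_or_eq_top with h | h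
  · exfalso
    obtain ⟨z, hz, h1, h2⟩ := sep_one x hx y hy X hX hY i j hij
    have : z i ∈ K := ⟨z, hz, rfl, h2⟩
    rw [h, Subgroup.mem_bot] at this
    exact h1 this
  · have : t ∈ K := by rw [h]; exact Subgroup.mem_top _
    exact this

theorem gen_pi [∀ i, Finite (T i)] (hna : ∀ i, ∃ a b : T i, a * b ≠ b * a) {d L : ℕ}
    (hd : ∀ i, ∃ x : Fin d → T i, Subgroup.closure (Set.range x) = ⊤)
    (hL : ∀ i, Fintype.card ι ≤ Nat.card (T i) ^ L) :
    ∃ s : Fin (d + L) → (∀ i, T i), Subgroup.closure (Set.range s) = ⊤ := by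
  classical
  choose x hx using hd
  obtain ⟨y, hy⟩ := exists_labels x hx hL
  let s : Fin (d + L) → (∀ i, T i) :=
    Fin.append (fun a i => x i a) (fun l i => y i l)
  refine ⟨s, ?_⟩
  set X := Subgroup.closure (Set.range s) with hXdef
  have hX : ∀ a, (fun i => x i a) ∈ X := by
    intro a
    apply Subgroup.subset_closure
    exact ⟨Fin.castAdd L a, by simp [s]⟩
  have hY : ∀ l, (fun i => y i l) ∈ X := by
    intro l
    apply Subgroup.subset_closure
    exact ⟨Fin.natAdd d l, by simp [s]⟩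
  have hsing : ∀ i, ∀ S : Finset ι, i ∉ S → ∃ z ∈ X, z i ≠ 1 ∧ ∀ j ∈ S, z j = 1 := by
    intro i S
    induction S using Finset.induction_on with
    | empty =>
      intro _
      obtain ⟨t, ht⟩ := exists_ne (1 : T i)
      obtain ⟨z, hz, hzt⟩ := proj_surj x hx X hX i t
      exact ⟨z, hz, by rw [hzt]; exact ht, by simp⟩
    | insert a S ha ih =>
      intro hi
      rw [Finset.mem_insert, not_or] at hi
      obtain ⟨z, hz, hz1, hz2⟩ := ih hi.2
      obtain ⟨b, hb⟩ := exists_comm_ne (hna i) hz1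
      obtain ⟨w, hw, hw1, hw2⟩ := sep_all x hx y hy X hX hY i a hi.1 b
      refine ⟨z * w * z⁻¹ * w⁻¹, X.mul_mem (X.mul_mem (X.mul_mem hz hw) (X.inv_mem hz))
        (X.inv_mem hw), ?_, ?_⟩
      · intro h
        apply hb
        have h2 : z i * w i * (z i)⁻¹ * (w i)⁻¹ = 1 := h
        rw [hw1] at h2
        rw [mul_inv_eq_one, mul_inv_eq_iff_eq_mul] at h2
        exact h2
      · intro j hj
        rw [Finset.mem_insert] at hj
        rcases hj with rfl | hj
        · simp [hw2]
        · simp [hz2 j hj]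
  have hsingle : ∀ i, ∀ t : T i, Pi.mulSingle i t ∈ X := by
    intro i
    let K : Subgroup (T i) := X.comap (MonoidHom.mulSingle T i)
    have hK : K.Normal := by
      constructor
      intro a ha g
      obtain ⟨w, hw, rfl⟩ := proj_surj x hx X hX i g
      have h1 : Pi.mulSingle i (w i * a * (w i)⁻¹) = w * Pi.mulSingle i a * w⁻¹ := by
        funext j
        by_cases hj : j = i
        · subst hj; simp
        · simp [Pi.mulSingle_eq_of_ne hj]
      change Pi.mulSingle i (w i * a * (w i)⁻¹) ∈ X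
      rw [h1]
      exact X.mul_mem (X.mul_mem hw ha) (X.inv_mem hw)
    rcases hK.eq_bot_or_eq_top with h | h
    · exfalso
      obtain ⟨z, hz, hz1, hz2⟩ := hsing i (Finset.univ.erase i) (by simp)
      have h1 : z = Pi.mulSingle i (z i) := by
        funext j
        by_cases hj : j = i
        · subst hj; simp
        · rw [Pi.mulSingle_eq_of_ne hj]
          exact hz2 j (by simp [hj])
      have h2 : z i ∈ K := by
        change Pi.mulSingle i (z i) ∈ X
        rw [← h1]; exact hz
      rw [h, Subgroup.mem_bot] at h2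
      exact hz1 h2
    · intro t
      have : t ∈ K := by rw [h]; exact Subgroup.mem_top _
      exact this
  rw [eq_top_iff]
  intro z _
  exact Subgroup.pi_mem_of_mulSingle_mem z (fun i => hsingle i (z i))

end Gen

end Pool.Agent.H68.WL
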