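import Pool.Agent.H68.WLGame
import Pool.Agent.H68.WLGen

set_option autoImplicit false

namespace Pool.Agent.H68.WL

/-- `M` is a minimal normal subgroup of `G`. -/
def IsMinNormal {G : Type} [Group G] (M : Subgroup G) : Prop :=
  M ≠ ⊥ ∧ M.Normal ∧ ∀ K : Subgroup G, K.Normal → K ≤ M → K ≠ ⊥ → K = M

/-- `T` is a minimal normal subgroup of the subgroup `M`. -/
def IsMinNormalIn {G : Type} [Group G] (M T : Subgroup G) : Prop :=
  T ≤ M ∧ T ≠ ⊥ ∧ (∀ g ∈ M, ∀ t ∈ T, g * t * g⁻¹ ∈ T) ∧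
    ∀ K : Subgroup G, K ≤ T → K ≠ ⊥ → (∀ g ∈ M, ∀ t ∈ K, g * t * g⁻¹ ∈ K) → K = T

/-- `T` is a minimal normal subgroup of a minimal normal subgroup of `G`. For a finite group `G`
whose only abelian normal subgroup is trivial, these are the simple direct factors of the
socle. -/
def IsSocleFactor {G : Type} [Group G] (T : Subgroup G) : Prop :=
  ∃ M : Subgroup G, IsMinNormal M ∧ IsMinNormalIn M T

section Struct

variable {G : Type} [Group G]

theorem IsMinNormalIn.commute {M T T' : Subgroup G} (h : IsMinNormalIn M T)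
    (h' : IsMinNormalIn M T') (hne : T ≠ T') : ∀ x ∈ T, ∀ y ∈ T', x * y = y * x := by
  have hbot : T ⊓ T' = ⊥ := by
    by_contra hcon
    have hinv : ∀ g ∈ M, ∀ t ∈ T ⊓ T', g * t * g⁻¹ ∈ T ⊓ T' := fun g hg t ht =>
      ⟨h.2.2.1 g hg t ht.1, h'.2.2.1 g hg t ht.2⟩
    have h1 := h.2.2.2 (T ⊓ T') inf_le_left hcon hinv
    have h2 := h'.2.2.2 (T ⊓ T') inf_le_right hcon hinv
    exact hne (h1.symm.trans h2)
  intro x hx y hy
  have h1 : x * y * x⁻¹ * y⁻¹ ∈ T ⊓ T' := by
    refine Subgroup.mem_inf.2 ⟨?_, ?_⟩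
    · have := T.mul_mem hx (h.2.2.1 y (h'.1 hy) x⁻¹ (T.inv_mem hx))
      simpa only [mul_assoc] using this
    · exact T'.mul_mem (h'.2.2.1 x (h.1 hx) y hy) (T'.inv_mem hy)
  rw [hbot, Subgroup.mem_bot] at h1
  rw [mul_inv_eq_one, mul_inv_eq_iff_eq_mul] at h1
  exact h1

/-- The conjugate `g T g⁻¹`. -/
def cj (g : G) (T : Subgroup G) : Subgroup G := T.map (MulAut.conj g).toMonoidHom

theorem mem_cj {g x : G} {T : Subgroup G} : x ∈ cj g T ↔ g⁻¹ * x * g ∈ T := by
  constructor
  · rintro ⟨t, ht, rfl⟩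
    simpa [mul_assoc] using ht
  · intro h
    exact ⟨_, h, by simp [mul_assoc]⟩

theorem cj_mem {g t : G} {T : Subgroup G} (h : t ∈ T) : g * t * g⁻¹ ∈ cj g T :=
  mem_cj.2 (by simpa [mul_assoc] using h)

theorem cj_cj_inv (g : G) (T : Subgroup G) : cj g (cj g⁻¹ T) = T := by
  ext x; rw [mem_cj, mem_cj]; simp [mul_assoc]

theorem cj_inv_cj (g : G) (T : Subgroup G) : cj g⁻¹ (cj g T) = T := by
  ext x; rw [mem_cj, mem_cj]; simp [mul_assoc]

theorem cj_bot (g : G) : cj g (⊥ : Subgroup G) = ⊥ := Subgroup.map_bot _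

theorem cj_mono (g : G) {S T : Subgroup G} (h : S ≤ T) : cj g S ≤ cj g T :=
  Subgroup.map_mono h

theorem IsMinNormalIn.cj {M T : Subgroup G} (h : IsMinNormalIn M T) (hM : M.Normal) (g : G) :
    IsMinNormalIn M (cj g T) := by
  refine ⟨?_, ?_, ?_, ?_⟩
  · rintro x hx
    rw [mem_cj] at hx
    have := hM.conj_mem _ (h.1 hx) g
    simpa [mul_assoc] using this
  · intro hb
    apply h.2.1
    rw [← cj_inv_cj g T, hb, cj_bot]
  · intro a ha x hx
    rw [mem_cj] at hx ⊢
    have := h.2.2.1 (g⁻¹ * a * g) (by simpa using hM.conj_mem _ ha g⁻¹) _ hx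
    convert this using 1
    group
  · intro K hK hne hinv
    have h1 : WL.cj g⁻¹ K ≤ T := by
      have := cj_mono g⁻¹ hK
      rwa [cj_inv_cj] at this
    have h2 : WL.cj g⁻¹ K ≠ ⊥ := by
      intro hb
      apply hne
      rw [← cj_cj_inv g K, hb, cj_bot]
    have h3 := h.2.2.2 _ h1 h2 (by
      intro a ha x hx
      rw [mem_cj] at hx ⊢
      have := hinv (g * a * g⁻¹) (hM.conj_mem _ ha g) _ hx
      convert this using 1
      group)
    rw [← h3, cj_cj_inv]

theorem IsMinNormal.le_sup {M T : Subgroup G} (hM : IsMinNormal M) (h : IsMinNormalIn M T) :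
    M ≤ T ⊔ (M ⊓ Subgroup.centralizer (T : Set G)) := by
  have h1 : Subgroup.normalClosure (T : Set G) = M := by
    apply hM.2.2 _ inferInstance
    · exact @Subgroup.normalClosure_le_normal G _ (T : Set G) M hM.2.1 h.1
    · intro hb
      apply h.2.1
      rw [eq_bot_iff, ← hb]
      exact Subgroup.le_normalClosure
  conv_lhs => rw [← h1]
  rw [Subgroup.normalClosure, Subgroup.closure_le]
  intro x hx
  rw [Group.mem_conjugatesOfSet_iff] at hx
  obtain ⟨t, ht, hc⟩ := hx
  rw [isConj_iff] at hc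
  obtain ⟨g, rfl⟩ := hc
  have hcj := h.cj hM.2.1 g
  by_cases hne : T = cj g T
  · apply (le_sup_left : T ≤ _)
    rw [hne]
    exact cj_mem ht
  · apply (le_sup_right : (M ⊓ Subgroup.centralizer (T : Set G)) ≤ _)
    refine ⟨hM.2.1.conj_mem _ (h.1 ht) g, ?_⟩
    refine Subgroup.mem_centralizer_iff.2 ?_
    intro y hy
    exact h.commute hcj hne y hy _ (cj_mem ht)

variable [Finite G]

theorem not_comm_of_min
    (hss : ∀ N : Subgroup G, N.Normal → (∀ x ∈ N, ∀ y ∈ N, x * y = y * x) → N = ⊥)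
    {M T : Subgroup G} (hM : IsMinNormal M) (h : IsMinNormalIn M T) :
    ∃ a b : T, a * b ≠ b * a := by
  by_contra hcon
  push Not at hcon
  have hZ : T ≤ M ⊓ Subgroup.centralizer (M : Set G) := by
    intro t ht
    refine ⟨h.1 ht, ?_⟩
    refine Subgroup.mem_centralizer_iff.2 ?_
    intro m hm
    have hle : M ≤ Subgroup.centralizer ({t} : Set G) := by
      refine (hM.le_sup h).trans ?_
      rw [sup_le_iff]
      constructor
      · intro x hx
        rw [Subgroup.mem_centralizer_singleton_iff]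
        have := hcon ⟨x, hx⟩ ⟨t, ht⟩
        simpa using congrArg Subtype.val this
      · rintro x ⟨_, hx⟩
        rw [Subgroup.mem_centralizer_singleton_iff]
        exact (Subgroup.mem_centralizer_iff.1 hx t ht).symm
    have := hle hm
    rw [Subgroup.mem_centralizer_singleton_iff] at this
    exact this
  haveI := hM.2.1
  have hZbot : M ⊓ Subgroup.centralizer (M : Set G) = ⊥ := by
    apply hss _ inferInstance
    rintro x ⟨hx, _⟩ y ⟨_, hy⟩
    exact Subgroup.mem_centralizer_iff.1 hy x hx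
  apply h.2.1
  rw [eq_bot_iff, ← hZbot]
  exact hZ

theorem isSimple_of_min {M T : Subgroup G} (hM : IsMinNormal M) (h : IsMinNormalIn M T) :
    IsSimpleGroup T := by
  haveI : Nontrivial T := (Subgroup.nontrivial_iff_ne_bot T).2 h.2.1
  refine ⟨?_⟩
  intro K hK
  let K' : Subgroup G := K.map T.subtype
  have hle : K' ≤ T := by
    rintro _ ⟨x, _, rfl⟩
    exact x.2
  have hmem : ∀ x : T, (x : G) ∈ K' ↔ x ∈ K := by
    intro x
    constructor
    · rintro ⟨y, hy, hyx⟩
      have : y = x := Subtype.ext hyx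
      rwa [← this]
    · intro hx
      exact ⟨x, hx, rfl⟩
  have hnorm : M ≤ Subgroup.normalizer (K' : Set G) := by
    refine (hM.le_sup h).trans ?_
    rw [sup_le_iff]
    have hstab : ∀ S : Subgroup G, (∀ g ∈ S, ∀ k ∈ K', g * k * g⁻¹ ∈ K') →
        S ≤ Subgroup.normalizer (K' : Set G) := by
      intro S hS g hg
      rw [Subgroup.mem_normalizer_iff]
      intro k
      constructor
      · exact hS g hg k
      · intro hk
        have := hS g⁻¹ (S.inv_mem hg) _ hk
        simpa [mul_assoc] using this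
    constructor
    · apply hstab
      intro g hg k hk
      have h1 := hK.conj_mem ⟨k, hle hk⟩ ((hmem ⟨k, hle hk⟩).1 hk) ⟨g, hg⟩
      exact (hmem _).2 h1
    · apply hstab
      rintro g ⟨_, hg⟩ k hk
      have : g * k * g⁻¹ = k := by
        rw [← Subgroup.mem_centralizer_iff.1 hg k (hle hk)]; group
      rw [this]; exact hk
  by_cases hb : K' = ⊥
  · left
    rw [eq_bot_iff]
    intro x hx
    have h1 := (hmem x).2 hx
    rw [hb, Subgroup.mem_bot] at h1
    rw [Subgroup.mem_bot]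
    exact Subtype.ext h1
  · right
    have h1 := h.2.2.2 K' hle hb (by
      intro g hg t ht
      exact (Subgroup.mem_normalizer_iff.1 (hnorm hg) t).1 ht)
    rw [eq_top_iff]
    intro x _
    rw [← hmem, h1]
    exact x.2

theorem exists_minNormal {C : Subgroup G} (hC : C.Normal) (hne : C ≠ ⊥) :
    ∃ M ≤ C, IsMinNormal M := by
  have hfin : {K : Subgroup G | K.Normal ∧ K ≤ C ∧ K ≠ ⊥}.Finite := Set.toFinite _
  obtain ⟨M, hM, hmin⟩ := hfin.exists_minimal ⟨C, hC, le_rfl, hne⟩
  refine ⟨M, hM.2.1, hM.2.2, hM.1, ?_⟩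
  intro K hK hKM hKne
  exact le_antisymm hKM (hmin ⟨hK, hKM.trans hM.2.1, hKne⟩ hKM)

theorem exists_minNormalIn {M : Subgroup G} (hM : IsMinNormal M) :
    ∃ T, IsMinNormalIn M T := by
  have hfin : {K : Subgroup G | K ≤ M ∧ K ≠ ⊥ ∧ ∀ g ∈ M, ∀ t ∈ K, g * t * g⁻¹ ∈ K}.Finite :=
    Set.toFinite _
  obtain ⟨T, hT, hmin⟩ := hfin.exists_minimal ⟨M, le_rfl, hM.1, fun g hg t ht =>
    M.mul_mem (M.mul_mem hg ht) (M.inv_mem hg)⟩
  refine ⟨T, hT.1, hT.2.1, hT.2.2, ?_⟩
  intro K hKT hKne hinv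
  exact le_antisymm hKT (hmin ⟨hKT.trans hT.1, hKne, hinv⟩ hKT)

theorem socleFactor_commute {T T' : Subgroup G} (h : IsSocleFactor T) (h' : IsSocleFactor T')
    (hne : T ≠ T') : ∀ x ∈ T, ∀ y ∈ T', x * y = y * x := by
  obtain ⟨M, hM, hT⟩ := h
  obtain ⟨M', hM', hT'⟩ := h'
  by_cases hMM : M = M'
  · subst hMM
    exact hT.commute hT' hne
  · have hdis : Disjoint M M' := by
      rw [disjoint_iff]
      by_contra hcon
      haveI := hM.2.1
      haveI := hM'.2.1
      have h1 := hM.2.2 (M ⊓ M') inferInstance inf_le_left hcon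
      have h2 := hM'.2.2 (M ⊓ M') inferInstance inf_le_right hcon
      exact hMM (h1.symm.trans h2)
    intro x hx y hy
    exact Subgroup.commute_of_normal_of_disjoint M M' hM.2.1 hM'.2.1 hdis x y (hT.1 hx)
      (hT'.1 hy)

theorem IsSocleFactor.cj {T : Subgroup G} (h : IsSocleFactor T) (g : G) :
    IsSocleFactor (cj g T) := by
  obtain ⟨M, hM, hT⟩ := h
  exact ⟨M, hM, hT.cj hM.2.1 g⟩

/-- The socle, as the join of the socle factors. -/
def soc (G : Type) [Group G] : Subgroup G := ⨆ T : {T : Subgroup G // IsSocleFactor T}, T.1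

theorem soc_normal : (soc G).Normal := by
  constructor
  intro n hn g
  have h1 : soc G ≤ cj g⁻¹ (soc G) := by
    refine iSup_le ?_
    rintro ⟨T, hT⟩ x hx
    rw [mem_cj]
    have h2 : WL.cj g T ≤ soc G := le_iSup (fun T : {T : Subgroup G // IsSocleFactor T} => T.1)
      ⟨WL.cj g T, hT.cj g⟩
    have h3 := h2 (cj_mem (g := g) hx)
    simpa using h3
  have h2 := h1 hn
  rw [mem_cj] at h2
  simpa using h2

theorem soc_centralizer
    (hss : ∀ N : Subgroup G, N.Normal → (∀ x ∈ N, ∀ y ∈ N, x * y = y * x) → N = ⊥)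
    (g : G) (hg : ∀ t ∈ soc G, g * t = t * g) : g = 1 := by
  haveI := soc_normal (G := G)
  have hgc : g ∈ Subgroup.centralizer (soc G : Set G) := by
    rw [Subgroup.mem_centralizer_iff]
    intro t ht
    exact (hg t ht).symm
  by_contra hne
  have hC : Subgroup.centralizer (soc G : Set G) ≠ ⊥ := by
    intro hb
    rw [hb, Subgroup.mem_bot] at hgc
    exact hne hgc
  obtain ⟨M, hMC, hM⟩ := exists_minNormal (C := Subgroup.centralizer (soc G : Set G))
    inferInstance hC
  obtain ⟨T, hT⟩ := exists_minNormalIn hM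
  obtain ⟨a, b, hab⟩ := not_comm_of_min hss hM hT
  apply hab
  have ha : (a : G) ∈ soc G :=
    le_iSup (fun T : {T : Subgroup G // IsSocleFactor T} => T.1) ⟨T, M, hM, hT⟩ a.2
  have hb := hMC (hT.1 b.2)
  rw [Subgroup.mem_centralizer_iff] at hb
  exact Subtype.ext (hb a ha)

theorem soc_indep
    (hss : ∀ N : Subgroup G, N.Normal → (∀ x ∈ N, ∀ y ∈ N, x * y = y * x) → N = ⊥) :
    iSupIndep (fun T : {T : Subgroup G // IsSocleFactor T} => T.1) := by
  rintro ⟨T, hT⟩
  rw [disjoint_iff]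
  have hTs := hT
  obtain ⟨M, hM, hTM⟩ := hTs
  haveI := isSimple_of_min hM hTM
  have hle : (⨆ (j : {T : Subgroup G // IsSocleFactor T}) (_ : j ≠ ⟨T, hT⟩), j.1) ≤
      Subgroup.centralizer (T : Set G) := by
    refine iSup_le fun j => iSup_le fun hj => ?_
    intro x hx
    rw [Subgroup.mem_centralizer_iff]
    intro y hy
    exact socleFactor_commute hT j.2 (fun h => hj (Subtype.ext h.symm)) y hy x hx
  rw [eq_bot_iff]
  rintro x ⟨hx, hx'⟩
  have h1 := hle hx'
  rw [Subgroup.mem_centralizer_iff] at h1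
  rw [Subgroup.mem_bot]
  by_contra hne
  obtain ⟨b, hb⟩ := exists_comm_ne (not_comm_of_min hss hM hTM) (a := (⟨x, hx⟩ : T))
    (fun h => hne (congrArg Subtype.val h))
  apply hb
  exact Subtype.ext (h1 b b.2).symm

theorem card_socleFactors
    (hss : ∀ N : Subgroup G, N.Normal → (∀ x ∈ N, ∀ y ∈ N, x * y = y * x) → N = ⊥)
    {t : ℕ} (ht1 : 1 < t) (ht : ∀ T : Subgroup G, IsSocleFactor T → t ≤ Nat.card T) :
    Nat.card {T : Subgroup G // IsSocleFactor T} ≤ Nat.log t (Nat.card G) := by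
  classical
  have : Fintype {T : Subgroup G // IsSocleFactor T} := Fintype.ofFinite _
  have hcomm : Pairwise fun (i j : {T : Subgroup G // IsSocleFactor T}) =>
      ∀ x y : G, x ∈ i.1 → y ∈ j.1 → Commute x y := by
    intro i j hij x y hx hy
    exact socleFactor_commute i.2 j.2 (fun h => hij (Subtype.ext h)) x hx y hy
  have hinj := Subgroup.injective_noncommPiCoprod_of_iSupIndep (hcomm := hcomm) (soc_indep hss)
  have h1 := Nat.card_le_card_of_injective _ hinj
  rw [Nat.card_pi] at h1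
  have h2 : t ^ Nat.card {T : Subgroup G // IsSocleFactor T} ≤ Nat.card G := by
    refine le_trans ?_ h1
    rw [Nat.card_eq_fintype_card, ← Finset.card_univ]
    apply Finset.pow_card_le_prod
    rintro ⟨T, hT⟩ _
    exact ht T hT
  exact Nat.le_log_of_pow_le ht1 h2

/-- The socle is generated by `d + L` elements. -/
theorem soc_gen
    (hss : ∀ N : Subgroup G, N.Normal → (∀ x ∈ N, ∀ y ∈ N, x * y = y * x) → N = ⊥)
    {d L : ℕ}
    (hd : ∀ T : Subgroup G, IsSocleFactor T → ∃ s : Fin d → G,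
      Subgroup.closure (Set.range s) = T)
    (hL : ∀ T : Subgroup G, IsSocleFactor T →
      Nat.card {T : Subgroup G // IsSocleFactor T} ≤ Nat.card T ^ L) :
    ∃ p : Fin (d + L) → G, Subgroup.closure (Set.range p) = soc G := by
  classical
  haveI : Fintype {T : Subgroup G // IsSocleFactor T} := Fintype.ofFinite _
  have hcomm : Pairwise fun (i j : {T : Subgroup G // IsSocleFactor T}) =>
      ∀ x y : G, x ∈ i.1 → y ∈ j.1 → Commute x y := by
    intro i j hij x y hx hy
    exact socleFactor_commute i.2 j.2 (fun h => hij (Subtype.ext h)) x hx y hy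
  haveI : ∀ i : {T : Subgroup G // IsSocleFactor T}, IsSimpleGroup i.1 := by
    rintro ⟨T, M, hM, hT⟩
    exact isSimple_of_min hM hT
  have hna : ∀ i : {T : Subgroup G // IsSocleFactor T}, ∃ a b : i.1, a * b ≠ b * a := by
    rintro ⟨T, M, hM, hT⟩
    exact not_comm_of_min hss hM hT
  have hd' : ∀ i : {T : Subgroup G // IsSocleFactor T}, ∃ x : Fin d → i.1,
      Subgroup.closure (Set.range x) = ⊤ := by
    rintro ⟨T, hT⟩
    obtain ⟨s, hs⟩ := hd T hT
    have hmem : ∀ a, s a ∈ T := fun a => by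
      rw [← hs]; exact Subgroup.subset_closure ⟨a, rfl⟩
    refine ⟨fun a => ⟨s a, hmem a⟩, ?_⟩
    apply Subgroup.map_injective T.subtype_injective
    rw [MonoidHom.map_closure, ← MonoidHom.range_eq_map, Subgroup.range_subtype]
    have : (T.subtype : T → G) '' Set.range (fun a => (⟨s a, hmem a⟩ : T)) = Set.range s := by
      rw [← Set.range_comp]; rfl
    rw [this, hs]
  obtain ⟨s, hs⟩ := gen_pi (T := fun i : {T : Subgroup G // IsSocleFactor T} => i.1) hna hd'
    (L := L) (fun i => by rw [← Nat.card_eq_fintype_card]; exact hL i.1 i.2)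
  refine ⟨fun a => Subgroup.noncommPiCoprod hcomm (s a), ?_⟩
  have h1 := congrArg (Subgroup.map (Subgroup.noncommPiCoprod hcomm)) hs
  rw [MonoidHom.map_closure, ← MonoidHom.range_eq_map, Subgroup.noncommPiCoprod_range,
    ← Set.range_comp] at h1
  exact h1

end Struct

end Pool.Agent.H68.WL
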