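import Mathlib

/-!
# A weak algorithm in free associative algebras

For a field `F` let `R = F⟨ℕ⟩`, realised as the monoid algebra of the free monoid.
If `∑ v i * w i = 0` with all `v i, w i` nonzero, then one `v i` can be reduced
modulo the right ideal generated by the other ones (P. M. Cohn's weak algorithm).
-/

set_option autoImplicit false

namespace Pool.Agent.H68

open MonoidAlgebra

section

variable {F : Type*} [Field F]

/-- The free associative unital algebra on countably many letters. -/
abbrev FR (F : Type*) [Field F] := MonoidAlgebra F (FreeMonoid ℕ)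

/-- elements all of whose words have length `< k` -/
noncomputable def lt (F : Type*) [Field F] (k : ℕ) : Submodule F (FR F) :=
  MonoidAlgebra.supported F F {W | W.length < k}

lemma mem_lt {k : ℕ} {h : FR F} : h ∈ lt F k ↔ ∀ W, h.coeff W ≠ 0 → W.length < k := by
  rw [lt, MonoidAlgebra.mem_supported']
  constructor
  · intro H W hW
    by_contra hc
    exact hW (H W hc)
  · intro H W hW
    by_contra hc
    exact hW (H W hc)

lemma lt_mono {k l : ℕ} (hkl : k ≤ l) : lt F k ≤ lt F l := by
  intro h hh
  rw [mem_lt] at hh ⊢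
  intro W hW
  exact lt_of_lt_of_le (hh W hW) hkl

lemma single_mem_lt {k : ℕ} {W : FreeMonoid ℕ} {c : F} (hW : W.length < k) :
    (MonoidAlgebra.single W c : FR F) ∈ lt F k := by
  rw [mem_lt]
  intro V hV
  rw [MonoidAlgebra.coeff_single] at hV
  by_cases h : W = V
  · rw [← h]; exact hW
  · exact absurd (Finsupp.single_eq_of_ne (Ne.symm h)) hV

/-- degree plus one, and zero for the zero element -/
noncomputable def dg (h : FR F) : ℕ := h.coeff.support.sup (fun W => W.length + 1)

lemma mem_lt_iff_dg {k : ℕ} {h : FR F} : h ∈ lt F k ↔ dg h ≤ k := by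
  rw [mem_lt, dg, Finset.sup_le_iff]
  constructor
  · intro H W hW
    exact H W (Finsupp.mem_support_iff.1 hW)
  · intro H W hW
    exact H W (Finsupp.mem_support_iff.2 hW)

lemma dg_pos {h : FR F} (hh : h ≠ 0) : 0 < dg h := by
  by_contra hc
  have h0 : dg h ≤ 0 := by omega
  rw [← mem_lt_iff_dg, mem_lt] at h0
  apply hh
  rw [← MonoidAlgebra.coeff_eq_zero]
  ext W
  by_contra hW
  exact absurd (h0 W hW) (Nat.not_lt_zero _)

lemma dg_zero : dg (0 : FR F) = 0 := by
  simp [dg]

lemma exists_top {h : FR F} (hh : h ≠ 0) :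
    ∃ M : FreeMonoid ℕ, h.coeff M ≠ 0 ∧ M.length + 1 = dg h := by
  have hne : h.coeff.support.Nonempty := by
    rw [Finsupp.support_nonempty_iff]
    intro h0
    exact hh (MonoidAlgebra.coeff_eq_zero.1 h0)
  obtain ⟨M, hM, hM2⟩ := Finset.exists_mem_eq_sup _ hne (fun W => W.length + 1)
  exact ⟨M, Finsupp.mem_support_iff.1 hM, hM2.symm⟩

lemma mul_mem_lt {p q : ℕ} {a b : FR F} (ha : a ∈ lt F (p + 1)) (hb : b ∈ lt F q) :
    a * b ∈ lt F (p + q) := by
  have hspan : ∀ k, lt F k = Submodule.span F ((fun m ↦ MonoidAlgebra.single m (1 : F)) ''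
      {W : FreeMonoid ℕ | W.length < k}) := fun k => MonoidAlgebra.supported_eq_span_single _ _
  rw [hspan] at ha hb
  induction ha using Submodule.span_induction with
  | mem x hx =>
    obtain ⟨W, hW, rfl⟩ := hx
    induction hb using Submodule.span_induction with
    | mem y hy =>
      obtain ⟨V, hV, rfl⟩ := hy
      simp only [MonoidAlgebra.single_mul_single, mul_one]
      apply single_mem_lt
      simp only [Set.mem_ofPred_eq] at hW hV
      rw [FreeMonoid.length_mul]
      omega
    | zero => rw [mul_zero]; exact Submodule.zero_mem _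
    | add x y _ _ hx hy => rw [mul_add]; exact Submodule.add_mem _ hx hy
    | smul c x _ hx => rw [mul_smul_comm]; exact Submodule.smul_mem _ _ hx
  | zero => rw [zero_mul]; exact Submodule.zero_mem _
  | add x y _ _ hx hy => rw [add_mul]; exact Submodule.add_mem _ hx hy
  | smul c x _ hx => rw [smul_mul_assoc]; exact Submodule.smul_mem _ _ hx

/-- right cofactor by the word `M` -/
noncomputable def tr (M : FreeMonoid ℕ) : FR F →ₗ[F] FR F :=
  (MonoidAlgebra.coeffLinearEquiv F).symm.toLinearMap ∘ₗ
    (Finsupp.lcomapDomain (fun W : FreeMonoid ℕ => W * M) (mul_left_injective M)) ∘ₗ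
      (MonoidAlgebra.coeffLinearEquiv F).toLinearMap

lemma coeff_tr (M : FreeMonoid ℕ) (h : FR F) (W : FreeMonoid ℕ) :
    (tr M h).coeff W = h.coeff (W * M) := rfl

lemma tr_mem_lt {k : ℕ} {M : FreeMonoid ℕ} {h : FR F} (hh : h ∈ lt F (k + M.length)) :
    tr M h ∈ lt F k := by
  rw [mem_lt] at hh ⊢
  intro W hW
  rw [coeff_tr] at hW
  have := hh _ hW
  rw [FreeMonoid.length_mul] at this
  omega

lemma tr_eq_zero {M : FreeMonoid ℕ} {h : FR F} (hh : h ∈ lt F M.length) : tr M h = 0 := by
  rw [← MonoidAlgebra.coeff_eq_zero]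
  ext W
  rw [coeff_tr]
  by_contra hW
  rw [mem_lt] at hh
  have := hh _ hW
  rw [FreeMonoid.length_mul] at this
  omega

/-- elements all of whose words have length at least `k` -/
noncomputable def ge (F : Type*) [Field F] (k : ℕ) : Submodule F (FR F) :=
  MonoidAlgebra.supported F F {W | k ≤ W.length}

lemma exists_split (k : ℕ) (h : FR F) :
    ∃ a b : FR F, h = a + b ∧ a ∈ ge F k ∧ b ∈ lt F k ∧ (∀ l, h ∈ lt F l → b ∈ lt F l) := by
  classical
  refine ⟨.ofCoeff (h.coeff.filter (fun W => k ≤ W.length)),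
    .ofCoeff (h.coeff.filter (fun W => ¬ (k ≤ W.length))), ?_, ?_, ?_, ?_⟩
  · rw [← MonoidAlgebra.ofCoeff_add, Finsupp.filter_add_filter_not]
  · rw [ge, MonoidAlgebra.mem_supported']
    intro W hW
    simp only [Set.mem_ofPred_eq] at hW
    exact Finsupp.filter_apply_neg (fun W : FreeMonoid ℕ => k ≤ W.length) _ hW
  · rw [mem_lt]
    intro W hW
    by_contra hc
    apply hW
    exact Finsupp.filter_apply_neg (fun W : FreeMonoid ℕ => ¬ k ≤ W.length) _ (by omega)
  · intro l hl
    rw [mem_lt] at hl ⊢
    intro W hW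
    apply hl
    intro h0
    apply hW
    rw [Finsupp.filter_apply]
    simp [h0]

lemma tr_single_mul (M W : FreeMonoid ℕ) (c : F) :
    tr M (MonoidAlgebra.single (W * M) c : FR F) = MonoidAlgebra.single W c := by
  rw [← MonoidAlgebra.coeff_inj]
  ext V
  rw [coeff_tr, MonoidAlgebra.coeff_single, MonoidAlgebra.coeff_single]
  by_cases h : W = V
  · rw [h]; simp
  · have h' : W * M ≠ V * M := fun h2 => h (mul_right_cancel h2)
    rw [Finsupp.single_eq_of_ne (Ne.symm h), Finsupp.single_eq_of_ne (Ne.symm h')]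

lemma tr_single_of_not {M V : FreeMonoid ℕ} (c : F) (h : ∀ W, W * M ≠ V) :
    tr M (MonoidAlgebra.single V c : FR F) = 0 := by
  rw [← MonoidAlgebra.coeff_eq_zero]
  ext W
  rw [coeff_tr, MonoidAlgebra.coeff_single, Finsupp.single_eq_of_ne (h W)]
  rfl

lemma tr_mul {M : FreeMonoid ℕ} (a : FR F) {b : FR F} (hb : b ∈ ge F M.length) :
    tr M (a * b) = a * tr M b := by
  have hspan : ge F M.length = Submodule.span F ((fun m ↦ MonoidAlgebra.single m (1 : F)) ''
      {W : FreeMonoid ℕ | M.length ≤ W.length}) := MonoidAlgebra.supported_eq_span_single _ _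
  rw [hspan] at hb
  induction hb using Submodule.span_induction with
  | mem y hy =>
    obtain ⟨V, hV, rfl⟩ := hy
    simp only [Set.mem_ofPred_eq] at hV
    induction a using MonoidAlgebra.induction_linear with
    | zero => simp
    | add x y hx hy => rw [add_mul, map_add, hx, hy, add_mul]
    | single W c =>
      simp only [MonoidAlgebra.single_mul_single, mul_one]
      by_cases h : ∃ V', V' * M = V
      · obtain ⟨V', rfl⟩ := h
        rw [← mul_assoc, tr_single_mul, tr_single_mul, MonoidAlgebra.single_mul_single, mul_one]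
      · push Not at h
        rw [tr_single_of_not _ h, mul_zero]
        apply tr_single_of_not
        intro X hX
        -- `X * M = W * V` with `|M| ≤ |V|`
        have hX' : X.toList ++ M.toList = W.toList ++ V.toList := by
          rw [← FreeMonoid.toList_mul, ← FreeMonoid.toList_mul, hX]
        rcases List.append_eq_append_iff.1 hX' with ⟨a', ha1, ha2⟩ | ⟨c', hc1, hc2⟩
        · -- W = X ++ a', M = a' ++ V
          have hl : M.length = a'.length + V.length := by
            have h3 : M.toList.length = a'.length + V.toList.length := by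
              have := congrArg List.length ha2
              rw [List.length_append] at this
              exact this
            exact h3
          have : a'.length = 0 := by omega
          have ha0 : a' = [] := List.length_eq_zero_iff.1 this
          subst ha0
          apply h 1
          rw [one_mul]
          apply FreeMonoid.toList.injective
          simpa using ha2
        · -- X = W ++ c', V = c' ++ M
          apply h (FreeMonoid.ofList c')
          apply FreeMonoid.toList.injective
          rw [FreeMonoid.toList_mul, hc2]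
          simp
  | zero => simp
  | add x y _ _ hx hy => rw [mul_add, map_add, hx, hy, map_add, mul_add]
  | smul c x _ hx => rw [mul_smul_comm, map_smul, hx, map_smul, mul_smul_comm]

/-- The weak algorithm. -/
theorem weak_algorithm {ι : Type*} [DecidableEq ι] (s : Finset ι) (hs : s.Nonempty)
    (v w : ι → FR F) (hv : ∀ i ∈ s, v i ≠ 0) (hw : ∀ i ∈ s, w i ≠ 0)
    (h0 : ∑ i ∈ s, v i * w i = 0) :
    ∃ i₀ ∈ s, ∃ c : ι → FR F,
      dg (v i₀ + ∑ i ∈ s.erase i₀, v i * c i) < dg (v i₀) := by
  classical
  -- choose `i₀` maximising `dg v + dg w`, then `dg v`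
  obtain ⟨i₁, hi₁, hmax1⟩ := Finset.exists_max_image s (fun i => dg (v i) + dg (w i)) hs
  obtain ⟨i₀, hi₀, hmax2⟩ := Finset.exists_max_image
    (s.filter (fun i => dg (v i) + dg (w i) = dg (v i₁) + dg (w i₁))) (fun i => dg (v i))
    ⟨i₁, by simp [hi₁]⟩
  rw [Finset.mem_filter] at hi₀
  obtain ⟨hi₀s, hi₀e⟩ := hi₀
  obtain ⟨M, hM, hMl⟩ := exists_top (hw i₀ hi₀s)
  have hd0 : 0 < dg (v i₀) := dg_pos (hv i₀ hi₀s)
  -- the error terms
  have herr : ∀ i ∈ s, tr M (v i * w i) - v i * tr M (w i) ∈ lt F (dg (v i₀) - 1) := by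
    intro i hi
    obtain ⟨a, b, hab, ha, hb, hbl⟩ := exists_split M.length (w i)
    have h1 : tr M (v i * w i) - v i * tr M (w i) = tr M (v i * b) := by
      rw [hab, mul_add, map_add, tr_mul _ ha, map_add, tr_eq_zero hb, add_zero]
      abel
    rw [h1]
    apply tr_mem_lt
    have hvi : v i ∈ lt F ((dg (v i) - 1) + 1) := by
      rw [mem_lt_iff_dg]
      have := dg_pos (hv i hi)
      omega
    have hdi := dg_pos (hv i hi)
    by_cases hcase : dg (v i) + dg (w i) = dg (v i₁) + dg (w i₁)
    · have h2 : dg (v i) ≤ dg (v i₀) := hmax2 i (by simp [hi, hcase])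
      have h3 := mul_mem_lt hvi hb
      exact lt_mono (by omega) h3
    · have h2 : dg (v i) + dg (w i) ≤ dg (v i₁) + dg (w i₁) := hmax1 i hi
      have h3 := mul_mem_lt hvi (hbl (dg (w i)) (mem_lt_iff_dg.2 le_rfl))
      exact lt_mono (by omega) h3
  have hw0 : tr M (w i₀) = MonoidAlgebra.single 1 ((w i₀).coeff M) := by
    rw [← MonoidAlgebra.coeff_inj]
    ext W
    rw [coeff_tr, MonoidAlgebra.coeff_single]
    by_cases hW : W = 1
    · rw [hW, one_mul]; simp
    · rw [Finsupp.single_eq_of_ne hW]
      by_contra hc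
      have h4 : w i₀ ∈ lt F (dg (w i₀)) := mem_lt_iff_dg.2 le_rfl
      rw [mem_lt] at h4
      have h5 := h4 _ hc
      rw [FreeMonoid.length_mul] at h5
      have h6 : W.length = 0 := by omega
      exact hW (FreeMonoid.length_eq_zero.1 h6)
  set lam := (w i₀).coeff M with hlam
  have hsum : ∑ i ∈ s, v i * tr M (w i) ∈ lt F (dg (v i₀) - 1) := by
    have h7 : ∑ i ∈ s, (tr M (v i * w i) - v i * tr M (w i)) = - ∑ i ∈ s, v i * tr M (w i) := by
      rw [Finset.sum_sub_distrib, ← map_sum, h0, map_zero, zero_sub]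
    have h8 : ∑ i ∈ s, (tr M (v i * w i) - v i * tr M (w i)) ∈ lt F (dg (v i₀) - 1) :=
      Submodule.sum_mem _ herr
    rw [h7] at h8
    exact (Submodule.neg_mem_iff _).1 h8
  refine ⟨i₀, hi₀s, fun i => lam⁻¹ • tr M (w i), ?_⟩
  have h9 : v i₀ + ∑ i ∈ s.erase i₀, v i * (lam⁻¹ • tr M (w i))
      = lam⁻¹ • ∑ i ∈ s, v i * tr M (w i) := by
    rw [← Finset.add_sum_erase s _ hi₀s, smul_add, Finset.smul_sum, hw0]
    congr 1
    · have : (MonoidAlgebra.single 1 lam : FR F) = lam • (1 : FR F) := by
        rw [MonoidAlgebra.one_def, MonoidAlgebra.smul_single, smul_eq_mul, mul_one]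
      rw [this, mul_smul_comm, mul_one, smul_smul, inv_mul_cancel₀ hM, one_smul]
    · apply Finset.sum_congr rfl
      intro i _
      rw [mul_smul_comm]
  rw [h9]
  have h10 : lam⁻¹ • ∑ i ∈ s, v i * tr M (w i) ∈ lt F (dg (v i₀) - 1) :=
    Submodule.smul_mem _ _ hsum
  rw [mem_lt_iff_dg] at h10
  omega

end

end Pool.Agent.H68
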