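import Pool.Agent.H68.AltIdent
import Pool.Agent.H68.WeakAlg

/-!
# Products of the nuclear ideal and the associator ideal meet trivially

For an alternative algebra `A` let `U(A)` be the ideal of nuclear elements annihilating all
associators.  An element `∑ v i * w i` with `v i, w i` in `U`, which vanishes in the free
associative algebra, is zero.
-/

set_option autoImplicit false

namespace Pool.Agent.H68

open MonoidAlgebra

section

variable {F : Type*} [Field F]
variable {A : Type*} [NonUnitalNonAssocRing A] [Module F A] [IsScalarTower F A A]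
  [SMulCommClass F A A]

omit [IsScalarTower F A A] [SMulCommClass F A A] in
lemma as_smul_left [IsScalarTower F A A] (c : F) (x y z : A) :
    associator (c • x) y z = c • associator x y z := by
  simp only [associator, smul_mul_assoc, smul_sub]

omit [SMulCommClass F A A] in
lemma IsAlt.InU.smul {r : A} (hr : IsAlt.InU r) (c : F) : IsAlt.InU (c • r) := by
  constructor
  · intro a b; rw [as_smul_left, hr.nuc, smul_zero]
  · intro a b d; rw [smul_mul_assoc, hr.ann, smul_zero]

/-- `U(A)` as a submodule -/
def USub (F A : Type*) [Field F] [NonUnitalNonAssocRing A] [Module F A] [IsScalarTower F A A]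
    [SMulCommClass F A A] : Submodule F A where
  carrier := {r | IsAlt.InU r}
  zero_mem' := IsAlt.InU.zero
  add_mem' := fun ha hb => IsAlt.InU.add ha hb
  smul_mem' := fun c _ hr => IsAlt.InU.smul hr c

lemma mem_USub {r : A} : r ∈ USub F A ↔ IsAlt.InU r := Iff.rfl

/-- right multiplication on `U(A)` -/
def rmulU (F : Type*) [Field F] [Module F A] [IsScalarTower F A A]
    [SMulCommClass F A A] (a : A) : Module.End F (USub F A) where
  toFun r := ⟨r.1 * a, mem_USub.2 (IsAlt.InU.mul_right (mem_USub.1 r.2) a)⟩
  map_add' r s := by ext; simp [add_mul]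
  map_smul' c r := by ext; simp [smul_mul_assoc]

/-- left multiplication on `U(A)` -/
def lmulU (F : Type*) [Field F] [Module F A] [IsScalarTower F A A]
    [SMulCommClass F A A] (hA : IsAlt A) (a : A) : Module.End F (USub F A) where
  toFun r := ⟨a * r.1, mem_USub.2 (IsAlt.InU.mul_left hA (mem_USub.1 r.2) a)⟩
  map_add' r s := by ext; simp [mul_add]
  map_smul' c r := by ext; simp [mul_smul_comm]

/-- the right action of `A` on `U(A)` as a homomorphism -/
def rhoA (F : Type*) [Field F] [Module F A] [IsScalarTower F A A]
    [SMulCommClass F A A] : A →ₙₐ[F] (Module.End F (USub F A))ᵐᵒᵖ where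
  toFun a := MulOpposite.op (rmulU F a)
  map_smul' c a := by
    apply MulOpposite.unop_injective
    ext r; simp [rmulU, mul_smul_comm]
  map_zero' := by
    apply MulOpposite.unop_injective
    ext r; simp [rmulU]
  map_add' a b := by
    apply MulOpposite.unop_injective
    ext r; simp [rmulU, mul_add]
  map_mul' a b := by
    apply MulOpposite.unop_injective
    ext r
    have h := (mem_USub.1 r.2).nuc a b
    rw [associator, sub_eq_zero] at h
    simp [rmulU, h]

/-- the left action of `A` on `U(A)` as a homomorphism -/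
def lamA (F : Type*) [Field F] [Module F A] [IsScalarTower F A A]
    [SMulCommClass F A A] (hA : IsAlt A) : A →ₙₐ[F] (Module.End F (USub F A)) where
  toFun a := lmulU F hA a
  map_smul' c a := by
    ext r; simp [lmulU, smul_mul_assoc]
  map_zero' := by
    ext r; simp [lmulU]
  map_add' a b := by
    ext r; simp [lmulU, add_mul]
  map_mul' a b := by
    ext r
    have h := IsAlt.Nuc.right hA (mem_USub.1 r.2).nuc a b
    rw [associator, sub_eq_zero] at h
    simp [lmulU, h]

/-- the free nonassociative algebra on countably many generators -/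
abbrev FN (F : Type*) [Field F] := FreeNonUnitalNonAssocAlgebra F ℕ

/-- the letters of the free associative algebra -/
noncomputable def letter (F : Type*) [Field F] (i : ℕ) : FR F :=
  MonoidAlgebra.single (FreeMonoid.of i) 1

/-- the projection from the free nonassociative to the free associative algebra -/
noncomputable def proj (F : Type*) [Field F] : FN F →ₙₐ[F] FR F :=
  FreeNonUnitalNonAssocAlgebra.lift F (letter F)

lemma rho_factor (φ : ℕ → A) (d : FN F) :
    rhoA F (FreeNonUnitalNonAssocAlgebra.lift F φ d)
      = MonoidAlgebra.lift F (Module.End F (USub F A))ᵐᵒᵖ (FreeMonoid ℕ)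
        (FreeMonoid.lift (fun i => rhoA F (φ i))) (proj F d) := by
  have h : (rhoA F).comp (FreeNonUnitalNonAssocAlgebra.lift F φ)
      = ((MonoidAlgebra.lift F (Module.End F (USub F A))ᵐᵒᵖ (FreeMonoid ℕ)
        (FreeMonoid.lift (fun i => rhoA F (φ i))) : _ →ₐ[F] _) :
          FR F →ₙₐ[F] (Module.End F (USub F A))ᵐᵒᵖ).comp (proj F) := by
    apply FreeNonUnitalNonAssocAlgebra.hom_ext
    intro i
    have e : (MonoidAlgebra.lift F (Module.End F (USub F A))ᵐᵒᵖ (FreeMonoid ℕ)
        (FreeMonoid.lift (fun i => rhoA F (φ i)))) (MonoidAlgebra.single (FreeMonoid.of i) 1)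
        = rhoA F (φ i) := by
      rw [MonoidAlgebra.lift_single]; simp
    simp only [NonUnitalAlgHom.comp_apply, FreeNonUnitalNonAssocAlgebra.lift_of_apply, proj, letter]
    exact e.symm
  exact DFunLike.congr_fun h d

lemma lam_factor (hA : IsAlt A) (φ : ℕ → A) (d : FN F) :
    lamA F hA (FreeNonUnitalNonAssocAlgebra.lift F φ d)
      = MonoidAlgebra.lift F (Module.End F (USub F A)) (FreeMonoid ℕ)
        (FreeMonoid.lift (fun i => lamA F hA (φ i))) (proj F d) := by
  have h : (lamA F hA).comp (FreeNonUnitalNonAssocAlgebra.lift F φ)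
      = ((MonoidAlgebra.lift F (Module.End F (USub F A)) (FreeMonoid ℕ)
        (FreeMonoid.lift (fun i => lamA F hA (φ i))) : _ →ₐ[F] _) :
          FR F →ₙₐ[F] (Module.End F (USub F A))).comp (proj F) := by
    apply FreeNonUnitalNonAssocAlgebra.hom_ext
    intro i
    have e : (MonoidAlgebra.lift F (Module.End F (USub F A)) (FreeMonoid ℕ)
        (FreeMonoid.lift (fun i => lamA F hA (φ i)))) (MonoidAlgebra.single (FreeMonoid.of i) 1)
        = lamA F hA (φ i) := by
      rw [MonoidAlgebra.lift_single]; simp
    simp only [NonUnitalAlgHom.comp_apply, FreeNonUnitalNonAssocAlgebra.lift_of_apply, proj, letter]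
    exact e.symm
  exact DFunLike.congr_fun h d

lemma U_mul_ker {r : A} (hr : IsAlt.InU r) (φ : ℕ → A) {d : FN F} (hd : proj F d = 0) :
    r * FreeNonUnitalNonAssocAlgebra.lift F φ d = 0 := by
  have h := rho_factor (A := A) φ d
  rw [hd, map_zero] at h
  have h2 := congrArg (fun e => (MulOpposite.unop e) (⟨r, mem_USub.2 hr⟩ : USub F A)) h
  have h3 := congrArg Subtype.val h2
  exact h3

lemma ker_mul_U (hA : IsAlt A) {r : A} (hr : IsAlt.InU r) (φ : ℕ → A) {d : FN F}
    (hd : proj F d = 0) :
    FreeNonUnitalNonAssocAlgebra.lift F φ d * r = 0 := by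
  have h := lam_factor (A := A) hA φ d
  rw [hd, map_zero] at h
  have h2 := congrArg (fun e => e (⟨r, mem_USub.2 hr⟩ : USub F A)) h
  have h3 := congrArg Subtype.val h2
  exact h3

lemma exists_word (W : FreeMonoid ℕ) :
    W = 1 ∨ ∃ d : FN F, proj F d = MonoidAlgebra.single W 1 := by
  induction W using FreeMonoid.recOn with
  | one => exact Or.inl rfl
  | of_mul i W ih =>
    right
    rcases ih with rfl | ⟨d, hd⟩
    · refine ⟨FreeNonUnitalNonAssocAlgebra.of F i, ?_⟩
      simp [proj, letter]
    · refine ⟨FreeNonUnitalNonAssocAlgebra.of F i * d, ?_⟩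
      rw [map_mul, hd]
      simp [proj, letter, MonoidAlgebra.single_mul_single]

lemma exists_pre (c : FR F) : ∃ (l : F) (d : FN F), c = l • (1 : FR F) + proj F d := by
  induction c using MonoidAlgebra.induction_linear with
  | zero => exact ⟨0, 0, by simp⟩
  | add x y hx hy =>
    obtain ⟨l, d, rfl⟩ := hx
    obtain ⟨l', d', rfl⟩ := hy
    refine ⟨l + l', d + d', ?_⟩
    rw [map_add, add_smul]; abel
  | single W c =>
    rcases exists_word (F := F) W with rfl | ⟨d, hd⟩
    · refine ⟨c, 0, ?_⟩
      rw [map_zero, add_zero, MonoidAlgebra.one_def, MonoidAlgebra.smul_single, smul_eq_mul,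
        mul_one]
    · refine ⟨0, c • d, ?_⟩
      rw [map_smul, hd, zero_smul, zero_add, MonoidAlgebra.smul_single, smul_eq_mul, mul_one]

/-- The main flatness statement. -/
theorem flat (hA : IsAlt A) (φ : ℕ → A) {ι : Type*} [DecidableEq ι] :
    ∀ (n : ℕ) (s : Finset ι) (v w : ι → FN F),
      (∀ i ∈ s, IsAlt.InU (FreeNonUnitalNonAssocAlgebra.lift F φ (v i)) ∧
        IsAlt.InU (FreeNonUnitalNonAssocAlgebra.lift F φ (w i))) →
      ∑ i ∈ s, proj F (v i) * proj F (w i) = 0 →
      (∑ i ∈ s, dg (proj F (v i))) + s.card ≤ n →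
      ∑ i ∈ s, FreeNonUnitalNonAssocAlgebra.lift F φ (v i) *
        FreeNonUnitalNonAssocAlgebra.lift F φ (w i) = 0 := by
  classical
  intro n
  induction n with
  | zero =>
    intro s v w _ _ hn
    have : s.card = 0 := by omega
    rw [Finset.card_eq_zero] at this
    subst this
    simp
  | succ n ih =>
    intro s v w hU h0 hn
    by_cases hvz : ∃ i ∈ s, proj F (v i) = 0
    · obtain ⟨i, hi, hvi⟩ := hvz
      rw [← Finset.add_sum_erase s _ hi]
      rw [ker_mul_U hA (hU i hi).2 φ hvi, zero_add]
      apply ih
      · intro j hj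
        exact hU j (Finset.mem_of_mem_erase hj)
      · rw [← Finset.add_sum_erase s _ hi, hvi, zero_mul, zero_add] at h0
        exact h0
      · have h1 := Finset.card_erase_of_mem hi
        have h2 := Finset.add_sum_erase s (fun i => dg (proj F (v i))) hi
        have h3 : 0 < s.card := Finset.card_pos.2 ⟨i, hi⟩
        omega
    by_cases hwz : ∃ i ∈ s, proj F (w i) = 0
    · obtain ⟨i, hi, hwi⟩ := hwz
      rw [← Finset.add_sum_erase s _ hi]
      rw [U_mul_ker (hU i hi).1 φ hwi, zero_add]
      apply ih
      · intro j hj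
        exact hU j (Finset.mem_of_mem_erase hj)
      · rw [← Finset.add_sum_erase s _ hi, hwi, mul_zero, zero_add] at h0
        exact h0
      · have h1 := Finset.card_erase_of_mem hi
        have h2 := Finset.add_sum_erase s (fun i => dg (proj F (v i))) hi
        have h3 : 0 < s.card := Finset.card_pos.2 ⟨i, hi⟩
        omega
    push Not at hvz hwz
    rcases s.eq_empty_or_nonempty with rfl | hs
    · simp
    obtain ⟨i₀, hi₀, c, hc⟩ := weak_algorithm s hs (fun i => proj F (v i))
      (fun i => proj F (w i)) hvz hwz h0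
    choose l d hld using fun i => exists_pre (F := F) (c i)
    set v' : ι → FN F := Function.update v i₀
      (v i₀ + ∑ i ∈ s.erase i₀, (l i • v i + v i * d i)) with hv'
    set w' : ι → FN F := fun i => if i = i₀ then w i₀ else w i - (l i • w i₀ + d i * w i₀) with hw'
    have hv'0 : v' i₀ = v i₀ + ∑ i ∈ s.erase i₀, (l i • v i + v i * d i) := by
      rw [hv', Function.update_self]
    have hv'1 : ∀ i, i ≠ i₀ → v' i = v i := by
      intro i hi
      rw [hv', Function.update_of_ne hi]
    have hw'0 : w' i₀ = w i₀ := by simp [hw']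
    have hw'1 : ∀ i, i ≠ i₀ → w' i = w i - (l i • w i₀ + d i * w i₀) := by
      intro i hi
      simp [hw', hi]
    -- the sum in `A`
    have hsumA : ∑ i ∈ s, FreeNonUnitalNonAssocAlgebra.lift F φ (v i) *
        FreeNonUnitalNonAssocAlgebra.lift F φ (w i) =
        ∑ i ∈ s, FreeNonUnitalNonAssocAlgebra.lift F φ (v' i) *
        FreeNonUnitalNonAssocAlgebra.lift F φ (w' i) := by
      rw [← Finset.add_sum_erase s _ hi₀, ← Finset.add_sum_erase s (fun i =>
        FreeNonUnitalNonAssocAlgebra.lift F φ (v' i) *
        FreeNonUnitalNonAssocAlgebra.lift F φ (w' i)) hi₀]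
      rw [hv'0, hw'0, map_add, map_sum, add_mul, Finset.sum_mul, add_assoc,
        ← Finset.sum_add_distrib]
      congr 1
      apply Finset.sum_congr rfl
      intro i hi
      have hne := Finset.ne_of_mem_erase hi
      have his := Finset.mem_of_mem_erase hi
      rw [hv'1 i hne, hw'1 i hne]
      simp only [map_add, map_sub, map_smul, map_mul]
      have h := (hU i his).1.nuc (FreeNonUnitalNonAssocAlgebra.lift F φ (d i))
        (FreeNonUnitalNonAssocAlgebra.lift F φ (w i₀))
      rw [associator, sub_eq_zero] at h
      rw [add_mul, mul_sub, mul_add, h, smul_mul_assoc, mul_smul_comm]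
      abel
    -- the sum in the free associative algebra
    have hsumR : ∑ i ∈ s, proj F (v i) * proj F (w i) =
        ∑ i ∈ s, proj F (v' i) * proj F (w' i) := by
      rw [← Finset.add_sum_erase s _ hi₀, ← Finset.add_sum_erase s (fun i =>
        proj F (v' i) * proj F (w' i)) hi₀]
      rw [hv'0, hw'0, map_add, map_sum, add_mul, Finset.sum_mul, add_assoc,
        ← Finset.sum_add_distrib]
      congr 1
      apply Finset.sum_congr rfl
      intro i hi
      have hne := Finset.ne_of_mem_erase hi
      rw [hv'1 i hne, hw'1 i hne]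
      simp only [map_add, map_sub, map_smul, map_mul]
      rw [add_mul, mul_sub, mul_add, mul_assoc, smul_mul_assoc, mul_smul_comm]
      abel
    rw [hsumA]
    apply ih
    · intro i his
      by_cases hi : i = i₀
      · subst hi
        rw [hv'0, hw'0]
        refine ⟨?_, (hU i his).2⟩
        rw [map_add, map_sum]
        refine IsAlt.InU.add (hU i his).1 ?_
        have : ∀ j ∈ s.erase i, FreeNonUnitalNonAssocAlgebra.lift F φ (l j • v j + v j * d j)
            ∈ USub F A := by
          intro j hj
          have hjs := Finset.mem_of_mem_erase hj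
          rw [map_add, map_smul, map_mul]
          exact Submodule.add_mem _ (Submodule.smul_mem _ _ (mem_USub.2 (hU j hjs).1))
            (mem_USub.2 (IsAlt.InU.mul_right (hU j hjs).1 _))
        exact mem_USub.1 (Submodule.sum_mem _ this)
      · rw [hv'1 i hi, hw'1 i hi]
        refine ⟨(hU i his).1, ?_⟩
        rw [map_sub, map_add, map_smul, map_mul]
        apply mem_USub (F := F).1
        exact Submodule.sub_mem _ (mem_USub.2 (hU i his).2)
          (Submodule.add_mem _ (Submodule.smul_mem _ _ (mem_USub.2 (hU i₀ hi₀).2))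
            (mem_USub.2 (IsAlt.InU.mul_left hA (hU i₀ hi₀).2 _)))
    · rw [← hsumR]; exact h0
    · have h1 := Finset.add_sum_erase s (fun i => dg (proj F (v i))) hi₀
      have h2 := Finset.add_sum_erase s (fun i => dg (proj F (v' i))) hi₀
      have h3 : ∑ i ∈ s.erase i₀, dg (proj F (v' i)) = ∑ i ∈ s.erase i₀, dg (proj F (v i)) := by
        apply Finset.sum_congr rfl
        intro i hi
        rw [hv'1 i (Finset.ne_of_mem_erase hi)]
      have h4 : dg (proj F (v' i₀)) < dg (proj F (v i₀)) := by
        rw [hv'0, map_add, map_sum]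
        have h5 : ∑ i ∈ s.erase i₀, proj F (l i • v i + v i * d i)
            = ∑ i ∈ s.erase i₀, proj F (v i) * c i := by
          apply Finset.sum_congr rfl
          intro i _
          rw [hld i, map_add, map_smul, map_mul, mul_add, mul_smul_comm, mul_one]
        rw [h5]
        exact hc
      omega

end

end Pool.Agent.H68
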