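import Mathlib

/-!
# Identities in alternative rings

Let `A` be a nonassociative ring satisfying the two alternative laws and without 2-torsion.
We prove the classical facts on Kleinfeld's function and show that
`[x, [x, y]^2]^2` lies in the nucleus of `A`.
-/

set_option autoImplicit false

namespace Pool.Agent.H68

section basic

variable {A : Type*} [NonUnitalNonAssocRing A]

/-- The commutator `x y - y x`. -/
def cm (x y : A) : A := x * y - y * x

/-- The anticommutator `x y + y x`. -/
def jm (x y : A) : A := x * y + y * x

/-- Kleinfeld's function. -/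
def kf (w x y z : A) : A :=
  associator (w * x) y z - x * associator w y z - associator x y z * w

lemma as_add_left (x x' y z : A) :
    associator (x + x') y z = associator x y z + associator x' y z := by
  simp only [associator, add_mul]; abel

lemma as_add_mid (x y y' z : A) :
    associator x (y + y') z = associator x y z + associator x y' z := by
  simp only [associator, add_mul, mul_add]; abel

lemma as_add_right (x y z z' : A) :
    associator x y (z + z') = associator x y z + associator x y z' := by
  simp only [associator, mul_add]; abel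

lemma as_sub_left (x x' y z : A) :
    associator (x - x') y z = associator x y z - associator x' y z := by
  simp only [associator, sub_mul]; abel

lemma as_sub_mid (x y y' z : A) :
    associator x (y - y') z = associator x y z - associator x y' z := by
  simp only [associator, sub_mul, mul_sub]; abel

lemma as_sub_right (x y z z' : A) :
    associator x y (z - z') = associator x y z - associator x y z' := by
  simp only [associator, mul_sub]; abel

lemma as_neg_left (x y z : A) : associator (-x) y z = - associator x y z := by
  simp only [associator, neg_mul]; abel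

lemma as_neg_mid (x y z : A) : associator x (-y) z = - associator x y z := by
  simp only [associator, neg_mul, mul_neg]; abel

lemma as_neg_right (x y z : A) : associator x y (-z) = - associator x y z := by
  simp only [associator, mul_neg]; abel

end basic

/-- The two alternative laws. -/
structure IsAlt (A : Type*) [NonUnitalNonAssocRing A] : Prop where
  law : ∀ x y : A, (x * x) * y = x * (x * y) ∧ (y * x) * x = y * (x * x)
  two : ∀ a : A, a + a = 0 → a = 0

namespace IsAlt

variable {A : Type*} [NonUnitalNonAssocRing A] (hA : IsAlt A)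

include hA

lemma xxy (x y : A) : associator x x y = 0 := by
  simp only [associator, (hA.law x y).1, sub_self]

lemma yxx (x y : A) : associator y x x = 0 := by
  simp only [associator, (hA.law x y).2, sub_self]

/-- skew-symmetry in the first two arguments -/
lemma sw12 (x y z : A) : associator x y z = - associator y x z := by
  have h := hA.xxy (x + y) z
  rw [as_add_left, as_add_mid, as_add_mid, hA.xxy, hA.xxy] at h
  rw [zero_add, add_zero] at h
  exact eq_neg_of_add_eq_zero_left h

lemma sw23 (x y z : A) : associator x y z = - associator x z y := by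
  have h := hA.yxx (y + z) x
  rw [as_add_mid, as_add_right, as_add_right, hA.yxx, hA.yxx] at h
  rw [zero_add, add_zero] at h
  exact eq_neg_of_add_eq_zero_left h

lemma cyc (x y z : A) : associator x y z = associator y z x := by
  rw [hA.sw12 x y z, hA.sw23 y x z, neg_neg]

lemma cyc' (x y z : A) : associator x y z = associator z x y := by
  rw [hA.cyc x y z, hA.cyc y z x]

lemma xyx (x y : A) : associator x y x = 0 := by
  rw [hA.sw12, hA.yxx, neg_zero]

lemma flex (x y : A) : (x * y) * x = x * (y * x) := by
  have := hA.xyx x y
  rwa [associator, sub_eq_zero] at this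

lemma la (x y : A) : (x * x) * y = x * (x * y) := (hA.law x y).1
lemma ra (x y : A) : (y * x) * x = y * (x * x) := (hA.law x y).2

omit hA in
lemma coc (a b c d : A) :
    associator (a * b) c d - associator a (b * c) d + associator a b (c * d)
      = a * associator b c d + associator a b c * d := by
  have h := associator_cocycle a b c d
  have e : a * associator b c d + associator a b c * d
      - (associator (a * b) c d - associator a (b * c) d + associator a b (c * d)) =
      a * associator b c d - associator (a * b) c d + associator a (b * c) d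
        - associator a b (c * d) + (associator a b c) * d := by abel
  rw [← sub_eq_zero, ← neg_eq_zero, neg_sub, e, h]

/-- rotation of Kleinfeld's function -/
lemma kf_rot (w x y z : A) : kf w x y z = - kf z w x y := by
  have h1 := coc w x y z
  have h2 := coc x y z w
  unfold kf
  rw [hA.cyc w (x * y) z, hA.cyc' w x (y * z)] at h1
  rw [hA.cyc x (y * z) w, hA.cyc' x y (z * w)] at h2
  rw [hA.cyc w y z, hA.cyc z x y]
  have h3 : associator (w * x) y z + associator (z * w) x y
      = w * associator x y z + associator w x y * z + (x * associator y z w + associator x y z * w)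
      := by
    rw [← h1, ← h2]
    rw [hA.cyc (y * z) w x]
    abel
  have h4 : associator (w * x) y z = w * associator x y z + associator w x y * z
      + (x * associator y z w + associator x y z * w) - associator (z * w) x y := by
    rw [← h3]; abel
  rw [h4]; abel

lemma kf_sw34 (w x y z : A) : kf w x y z = - kf w x z y := by
  unfold kf
  rw [hA.sw23 (w * x) y z, hA.sw23 w y z, hA.sw23 x y z]
  simp only [mul_neg, neg_mul]; abel

lemma kf_pair (w x y z : A) : kf w x y z = kf y z w x := by
  rw [hA.kf_rot w x y z, hA.kf_rot z w x y, neg_neg]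

lemma kf_sw12 (w x y z : A) : kf w x y z = - kf x w y z := by
  rw [hA.kf_pair w x y z, hA.kf_sw34 y z w x, hA.kf_pair y z x w]

lemma kf_sw23 (w x y z : A) : kf w x y z = - kf w y x z := by
  rw [hA.kf_rot w x y z, hA.kf_sw34 z w x y, hA.kf_rot z w y x, hA.kf_rot x z w y,
    hA.kf_rot y x z w]
  simp only [neg_neg]

/-- `(xy, x, z) = (y, x, z) x` -/
lemma bump1 (x y z : A) : associator (x * y) x z = associator y x z * x := by
  have h : kf x y x z = 0 := by
    have h1 := hA.kf_sw23 x y x z
    have h2 : kf x x y z = 0 := by
      apply hA.two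
      have h3 := hA.kf_sw12 x x y z
      nth_rewrite 1 [h3]
      exact neg_add_cancel _
    rw [h1, h2, neg_zero]
  unfold kf at h
  rw [hA.xxy, mul_zero, sub_zero, sub_eq_zero] at h
  exact h

/-- `(yx, x, z) = x (y, x, z)` -/
lemma bump2 (x y z : A) : associator (y * x) x z = x * associator y x z := by
  have h : kf y x x z = 0 := by
    apply hA.two
    have h3 := hA.kf_sw23 y x x z
    nth_rewrite 1 [h3]
    exact neg_add_cancel _
  unfold kf at h
  rw [hA.xxy, zero_mul, sub_zero, sub_eq_zero] at h
  exact h

/-- `(x, y, x z) = (x, y, z) x` -/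
lemma bump3 (x y z : A) : associator x y (x * z) = associator x y z * x := by
  rw [hA.cyc' x y (x * z), hA.bump1 x z y, hA.cyc z x y]

/-- `(x, y, z x) = x (x, y, z)` -/
lemma bump4 (x y z : A) : associator x y (z * x) = x * associator x y z := by
  rw [hA.cyc' x y (z * x), hA.bump2 x z y, hA.cyc z x y]

/-- `(x, y, y z) = (x, y, z) y` -/
lemma bump5 (x y z : A) : associator x y (y * z) = associator x y z * y := by
  rw [hA.sw12 x y (y * z), hA.bump3 y x z, hA.sw12 x y z, neg_mul]

/-- `(x, y, z y) = y (x, y, z)` -/
lemma bump6 (x y z : A) : associator x y (z * y) = y * associator x y z := by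
  rw [hA.sw12 x y (z * y), hA.bump4 y x z, hA.sw12 x y z, mul_neg]

lemma xy_x_y (x y : A) : associator (x * y) x y = 0 := by
  rw [hA.bump1, hA.xyx, zero_mul]

/-- `f(xy, z, x, y) = (x, y, p)` where `p = (x, y, z)` -/
lemma kf_xy (x y z : A) : kf (x * y) z x y = associator x y (associator x y z) := by
  rw [hA.kf_pair, hA.kf_sw12 x y (x * y) z, ← neg_neg (kf y x (x * y) z),
    ← hA.kf_sw12 x y (x * y) z]
  simp only [neg_neg]
  unfold kf
  set p := associator x y z with hp
  have a1 : associator (x * y) (x * y) z = 0 := hA.xxy _ _
  have a2 : associator x (x * y) z = p * x := by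
    rw [hA.cyc' x (x*y) z, hA.cyc' z x (x * y), hA.cyc' (x*y) z x, hA.sw12 x (x * y) z,
      hA.bump1 x y z, hA.sw12 y x z, neg_mul, neg_neg]
  have a3 : associator y (x * y) z = - (y * p) := by
    rw [hA.sw12 y (x * y) z, hA.bump2 y x z]
  rw [a1, a2, a3, zero_sub, neg_mul, sub_neg_eq_add]
  have : associator y p x = associator x y p := by
    rw [hA.cyc' y p x]
  rw [← this, associator]; abel

/-- `p v = - (x, y, p)` where `p = (x, y, z)`, `v = [x, y]`. -/
lemma pv (x y z : A) :
    associator x y z * cm x y = - associator x y (associator x y z) := by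
  have e1 := hA.kf_xy x y z
  have c1 := hA.cyc' x y z
  set p := associator x y z with hp
  have h1 : associator x y ((x * y) * z) = p * (x * y) + associator x y p := by
    unfold kf at e1
    rw [hA.xy_x_y x y, mul_zero, sub_zero, ← c1] at e1
    rw [hA.cyc' x y ((x * y) * z), ← e1]
    abel
  have h2 : associator x y (x * (y * z)) = (p * y) * x := by
    rw [hA.bump3, hA.bump5]
  have h3 : x * (y * z) = (x * y) * z - p := by
    rw [hp, associator]; abel
  rw [h3, as_sub_right, h1] at h2
  have h4 : associator p y x = - associator x y p := by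
    rw [hA.cyc p y x, hA.sw12 y x p]
  have h5 : (p * y) * x = p * (y * x) - associator x y p := by
    rw [sub_eq_add_neg, ← h4, associator]; abel
  rw [h5] at h2
  rw [cm, mul_sub]
  have h6 : p * (x * y) = p * (y * x) - associator x y p := by
    rw [← h2]; abel
  rw [h6]; abel

/-- `v p = (x, y, p)` where `p = (x, y, z)`, `v = [x, y]`. -/
lemma vp (x y z : A) :
    cm x y * associator x y z = associator x y (associator x y z) := by
  have e1 := hA.kf_xy x y z
  have c1 := hA.cyc' x y z
  set p := associator x y z with hp
  have h1 : associator x y (z * (x * y)) = (x * y) * p - associator x y p := by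
    rw [hA.kf_sw12] at e1
    unfold kf at e1
    rw [hA.xy_x_y x y, zero_mul, sub_zero, ← c1] at e1
    rw [hA.cyc' x y (z * (x * y)), ← e1]
    abel
  have h2 : associator x y ((z * x) * y) = y * (x * p) := by
    rw [hA.bump6, hA.bump4]
  have h3 : (z * x) * y = z * (x * y) + p := by
    rw [c1, associator]; abel
  rw [h3, as_add_right, h1] at h2
  have h4 : associator y x p = - associator x y p := by
    rw [hA.sw12 y x p]
  have h5 : y * (x * p) = (y * x) * p + associator x y p := by
    have : associator x y p = - associator y x p := hA.sw12 x y p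
    rw [this, associator]; abel
  rw [h5] at h2
  rw [cm, sub_mul]
  have h6 : (x * y) * p = (y * x) * p + associator x y p := by
    rw [← h2]; abel
  rw [h6]; abel

/-- `[x, y] ∘ (x, y, z) = 0` -/
lemma E (x y z : A) : jm (cm x y) (associator x y z) = 0 := by
  rw [jm, hA.pv, hA.vp]; abel

omit hA in
lemma jm_add_left (a b c : A) : jm (a + b) c = jm a c + jm b c := by
  simp only [jm, add_mul, mul_add]; abel

omit hA in
lemma jm_add_right (a b c : A) : jm a (b + c) = jm a b + jm a c := by
  simp only [jm, add_mul, mul_add]; abel

omit hA in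
lemma cm_add_left (a b c : A) : cm (a + b) c = cm a c + cm b c := by
  simp only [cm, add_mul, mul_add]; abel

omit hA in
lemma cm_add_right (a b c : A) : cm a (b + c) = cm a b + cm a c := by
  simp only [cm, add_mul, mul_add]; abel

/-- partial linearization of `E` -/
lemma E_lin1 (x r y z : A) :
    jm (cm x y) (associator r y z) + jm (cm r y) (associator x y z) = 0 := by
  have h1 := hA.E (x + r) y z
  have h2 := hA.E x y z
  have h3 := hA.E r y z
  simp only [cm_add_left, as_add_left, jm_add_left, jm_add_right] at h1
  rw [h2, h3, zero_add, add_zero] at h1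
  rw [add_comm]; exact h1

/-- full linearization of `E` -/
lemma E_lin (x r y s z : A) :
    jm (cm x y) (associator r s z) + jm (cm x s) (associator r y z)
      + jm (cm r y) (associator x s z) + jm (cm r s) (associator x y z) = 0 := by
  have h1 := hA.E_lin1 x r (y + s) z
  have h2 := hA.E_lin1 x r y z
  have h3 := hA.E_lin1 x r s z
  simp only [cm_add_right, as_add_mid, jm_add_left, jm_add_right] at h1
  have key : jm (cm x y) (associator r s z) + jm (cm x s) (associator r y z)
      + jm (cm r y) (associator x s z) + jm (cm r s) (associator x y z) =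
    (jm (cm x y) (associator r y z) + jm (cm x s) (associator r y z) +
        (jm (cm x y) (associator r s z) + jm (cm x s) (associator r s z)) +
      (jm (cm r y) (associator x y z) + jm (cm r s) (associator x y z) +
        (jm (cm r y) (associator x s z) + jm (cm r s) (associator x s z))))
    - (jm (cm x y) (associator r y z) + jm (cm r y) (associator x y z))
    - (jm (cm x s) (associator r s z) + jm (cm r s) (associator x s z)) := by
    abel
  rw [key, h2, h3, sub_zero, sub_zero]
  exact h1

/-- `(x^2, y, z) = x ∘ (x, y, z)` -/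
lemma sq_as (x y z : A) : associator (x * x) y z = jm x (associator x y z) := by
  have h : kf x x y z = 0 := by
    apply hA.two
    have h3 := hA.kf_sw12 x x y z
    nth_rewrite 1 [h3]
    exact neg_add_cancel _
  unfold kf at h
  rw [jm]
  have : associator (x * x) y z =
    (associator (x * x) y z - x * associator x y z - associator x y z * x)
      + (x * associator x y z + associator x y z * x) := by abel
  rw [this, h, zero_add]

/-- `([x,y], x, z) = [x, (x, y, z)]` -/
lemma v_x (x y z : A) : associator (cm x y) x z = cm x (associator x y z) := by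
  rw [cm, as_sub_left, hA.bump1, hA.bump2, hA.sw12 y x z, cm, neg_mul, mul_neg]; abel

/-- `([x,y], y, z) = [y, (x, y, z)]` -/
lemma v_y (x y z : A) : associator (cm x y) y z = cm y (associator x y z) := by
  rw [cm, as_sub_left, hA.bump1, hA.bump2, cm]

lemma cm_x_p (x y z : A) : cm x (associator x y z) = associator x y (z * x - x * z) := by
  rw [as_sub_right, hA.bump4, hA.bump3, cm]

lemma cm_y_p (x y z : A) : cm y (associator x y z) = associator x y (z * y - y * z) := by
  rw [as_sub_right, hA.bump6, hA.bump5, cm]

/-- `([x,y]^2, x, z) = 0` -/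
lemma w_x (x y z : A) : associator (cm x y * cm x y) x z = 0 := by
  rw [hA.sq_as, hA.v_x, hA.cm_x_p, hA.E]

/-- `([x,y]^2, y, z) = 0` -/
lemma w_y (x y z : A) : associator (cm x y * cm x y) y z = 0 := by
  rw [hA.sq_as, hA.v_y, hA.cm_y_p, hA.E]

/-- `f(x, x^2, r, s) = 0` -/
lemma kf_sq (x r s : A) : kf x (x * x) r s = 0 := by
  apply hA.two
  have h1 : kf x (x * x) r s = - kf (x * x) x r s := hA.kf_sw12 _ _ _ _
  nth_rewrite 2 [h1]
  unfold kf
  have h2 : x * (x * x) = (x * x) * x := (hA.la x x).symm
  have h3 := hA.sq_as x r s
  rw [h2, h3]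
  set h := associator x r s
  simp only [jm, mul_add, add_mul, hA.la, hA.ra, hA.flex]
  abel

/-- an element anticommuting with `v` commutes with `v^2` -/
lemma comm_sq {v k : A} (h : jm v k = 0) : (v * v) * k = k * (v * v) := by
  have h1 : v * k = - (k * v) := eq_neg_of_add_eq_zero_left h
  rw [hA.la, h1, mul_neg, ← hA.flex, h1, neg_mul, neg_neg, hA.ra]

omit hA in
lemma jm_zero_right (a : A) : jm a 0 = 0 := by
  simp [jm]

/-- `([x, w], x, s) = 0` for `w = [x,y]^2` -/
lemma n_x (x y s : A) : associator (cm x (cm x y * cm x y)) x s = 0 := by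
  rw [hA.v_x, hA.sw12, hA.w_x, neg_zero]
  simp [cm]

lemma w_v (v s : A) : associator (v * v) v s = 0 := by
  rw [hA.sq_as, hA.xxy, jm_zero_right]

/-- `([x, w], v, s) = 0` for `w = v^2`, `v = [x,y]` -/
lemma n_v (x y s : A) : associator (cm x (cm x y * cm x y)) (cm x y) s = 0 := by
  have hwx := fun s => hA.w_x x y s
  have hk : jm (cm x y) (associator x (cm x y) s) = 0 := by
    rw [hA.sw12, hA.v_x, hA.cm_x_p, ← as_neg_right, hA.E]
  set v := cm x y with hv
  have hc := hA.comm_sq hk
  have hwv := fun s => hA.w_v v s
  set w := v * v with hw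
  have e1 : kf x w v s = 0 := by
    rw [hA.kf_sw12, hA.kf_sw23, hA.kf_sw12, hA.kf_sq v x s]; simp
  have e2 : kf w x v s = 0 := by
    rw [hA.kf_sw12, e1, neg_zero]
  unfold kf at e1 e2
  rw [hwv, zero_mul, sub_zero, sub_eq_zero] at e1
  rw [hwv, mul_zero, sub_zero, sub_eq_zero] at e2
  rw [cm, as_sub_left, e1, e2, hc, sub_self]

/-- `([x, w], w, s) = 0` for `w = [x,y]^2` -/
lemma n_w (x y s : A) :
    associator (cm x (cm x y * cm x y)) (cm x y * cm x y) s = 0 := by
  rw [hA.sw12, hA.sq_as, hA.sw12, hA.n_v]
  simp [jm]

/-- The element `[x, [x,y]^2]^2` is nuclear. -/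
lemma nuc (x y r s : A) :
    associator (cm x (cm x y * cm x y) * cm x (cm x y * cm x y)) r s = 0 := by
  have hx := fun t => hA.n_x x y t
  have hw := fun t => hA.n_w x y t
  have h := hA.E_lin x r (cm x y * cm x y) s (cm x (cm x y * cm x y))
  set w := cm x y * cm x y
  set m := cm x w
  have a1 : associator r w m = 0 := by
    rw [hA.cyc' r w m, hA.sw23, hw, neg_zero]
  have a2 : ∀ t, associator x t m = 0 := by
    intro t
    rw [hA.cyc' x t m, hx]
  rw [a1, a2, a2] at h
  simp only [jm_zero_right, add_zero] at h
  rw [hA.sq_as, hA.cyc m r s, h]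

end IsAlt

/-- The two-variable polynomial `[x, [x,y]^2]^2`. -/
def nel {A : Type*} [NonUnitalNonAssocRing A] (x y : A) : A :=
  cm x (cm x y * cm x y) * cm x (cm x y * cm x y)

/-- The three-variable polynomial `[n(x,y), z]^2`. -/
def uel {A : Type*} [NonUnitalNonAssocRing A] (x y z : A) : A :=
  cm (nel x y) z * cm (nel x y) z

namespace IsAlt

variable {A : Type*} [NonUnitalNonAssocRing A] (hA : IsAlt A)

/-- membership in the nucleus -/
def Nuc (n : A) : Prop := ∀ a b : A, associator n a b = 0

section nucleus

/-- `(n a, b, c) = n (a, b, c)` -/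
lemma Nuc.s1 {n : A} (hn : Nuc n) (a b c : A) :
    associator (n * a) b c = n * associator a b c := by
  have h := coc n a b c
  rw [hn, hn, hn, zero_mul, add_zero, sub_zero, add_zero] at h
  exact h

include hA

lemma Nuc.mid {n : A} (hn : Nuc n) (a b : A) : associator a n b = 0 := by
  rw [hA.sw12, hn, neg_zero]

lemma Nuc.right {n : A} (hn : Nuc n) (a b : A) : associator a b n = 0 := by
  rw [hA.cyc' a b n, hn]

/-- `(a, b, c n) = (a, b, c) n` -/
lemma Nuc.s2 {n : A} (hn : Nuc n) (a b c : A) :
    associator a b (c * n) = associator a b c * n := by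
  have h := coc a b c n
  rw [Nuc.right hA hn, Nuc.right hA hn, Nuc.right hA hn, mul_zero, zero_add, sub_zero,
    zero_add] at h
  exact h

/-- `(a n, b, c) = (a, b, c) n` -/
lemma Nuc.s3 {n : A} (hn : Nuc n) (a b c : A) :
    associator (a * n) b c = associator a b c * n := by
  rw [hA.cyc (a * n) b c, Nuc.s2 hA hn, hA.cyc a b c]

/-- `n` commutes with associators -/
lemma Nuc.s4 {n : A} (hn : Nuc n) (a b c : A) :
    n * associator a b c = associator a b c * n := by
  have h := coc b n a c
  rw [hn, Nuc.mid hA hn, Nuc.mid hA hn, mul_zero, zero_mul, add_zero, add_zero, sub_eq_zero] at h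
  -- (b n, a, c) = (b, n a, c)
  rw [Nuc.s3 hA hn, hA.sw12 b (n * a) c, Nuc.s1 hn, hA.sw12 b a c, neg_mul, neg_inj] at h
  exact h.symm

/-- commutators with nuclear elements are nuclear -/
lemma Nuc.cm {n : A} (hn : Nuc n) (a : A) : Nuc (cm n a) := by
  intro b c
  rw [Pool.Agent.H68.cm, as_sub_left, Nuc.s1 hn, Nuc.s3 hA hn, Nuc.s4 hA hn, sub_self]

omit hA in
/-- products of nuclear elements are nuclear -/
lemma Nuc.mul {n m : A} (hn : Nuc n) (hm : Nuc m) : Nuc (n * m) := by
  intro b c
  rw [Nuc.s1 hn, hm, mul_zero]

/-- `[n, a] (a, c, d) = 0` -/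
lemma Nuc.s5 {n : A} (hn : Nuc n) (a c d : A) :
    Pool.Agent.H68.cm n a * associator a c d = 0 := by
  have h1 : Nuc (Pool.Agent.H68.cm n (a * a)) := Nuc.cm hA hn _
  have e : Pool.Agent.H68.cm n (a * a)
      = Pool.Agent.H68.cm n a * a + a * Pool.Agent.H68.cm n a := by
    simp only [Pool.Agent.H68.cm, sub_mul, mul_sub]
    have e1 : (n * a) * a = n * (a * a) := hA.ra a n
    have e2 : (a * n) * a = a * (n * a) := by
      have := Nuc.mid hA hn a a
      rwa [associator, sub_eq_zero] at this
    have e3 : a * (a * n) = (a * a) * n := (hA.la a n).symm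
    rw [e1, e2, e3]; abel
  have h2 := h1 c d
  rw [e, as_add_left, Nuc.s1 (Nuc.cm hA hn a), Nuc.s3 hA (Nuc.cm hA hn a),
    ← Nuc.s4 hA (Nuc.cm hA hn a)] at h2
  exact hA.two _ h2

/-- `[n, a] (b, c, d) = - [n, b] (a, c, d)` -/
lemma Nuc.s6 {n : A} (hn : Nuc n) (a b c d : A) :
    Pool.Agent.H68.cm n a * associator b c d = - (Pool.Agent.H68.cm n b * associator a c d) := by
  have h := Nuc.s5 hA hn (a + b) c d
  rw [cm_add_right, as_add_left, add_mul, mul_add, mul_add, Nuc.s5 hA hn, Nuc.s5 hA hn,
    zero_add, add_zero] at h
  exact eq_neg_of_add_eq_zero_left h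

/-- `([n, a][m, a]) (c, d, e) = 0` -/
lemma Nuc.s7 {n m : A} (hn : Nuc n) (hm : Nuc m) (a c d e : A) :
    (Pool.Agent.H68.cm n a * Pool.Agent.H68.cm m a) * associator c d e = 0 := by
  have hna := Nuc.cm hA hn a
  have hmc := Nuc.cm hA hm c
  have e1 : ∀ x y : A, (Pool.Agent.H68.cm n a * x) * y = Pool.Agent.H68.cm n a * (x * y) := by
    intro x y
    have := hna x y
    rwa [associator, sub_eq_zero] at this
  rw [e1, Nuc.s6 hA hm, Nuc.s4 hA hmc, mul_neg, ← e1, Nuc.s5 hA hn, zero_mul, neg_zero]

end nucleus

/-- The ideal of nuclear elements annihilating all associators. -/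
structure InU (r : A) : Prop where
  nuc : Nuc r
  ann : ∀ a b c : A, r * associator a b c = 0

namespace InU

omit hA in
lemma zero : InU (0 : A) := by
  constructor
  · intro a b; simp [associator]
  · intro a b c; simp

lemma add {r s : A} (hr : InU r) (hs : InU s) : InU (r + s) := by
  constructor
  · intro a b; rw [as_add_left, hr.nuc, hs.nuc, add_zero]
  · intro a b c; rw [add_mul, hr.ann, hs.ann, add_zero]

lemma neg {r : A} (hr : InU r) : InU (- r) := by
  constructor
  · intro a b; rw [as_neg_left, hr.nuc, neg_zero]
  · intro a b c; rw [neg_mul, hr.ann, neg_zero]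

include hA

omit hA in
lemma mul_right {r : A} (hr : InU r) (b : A) : InU (r * b) := by
  have e1 : ∀ x y : A, (r * x) * y = r * (x * y) := by
    intro x y
    have := hr.nuc x y
    rwa [associator, sub_eq_zero] at this
  constructor
  · intro c d; rw [Nuc.s1 hr.nuc, hr.ann]
  · intro c d e
    rw [e1]
    have h := coc b c d e
    have h2 : b * associator c d e = associator (b * c) d e - associator b (c * d) e
        + associator b c (d * e) - associator b c d * e := by rw [h]; abel
    rw [h2, mul_sub, mul_add, mul_sub, hr.ann, hr.ann, hr.ann, ← e1, hr.ann]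
    simp

lemma mul_left {r : A} (hr : InU r) (b : A) : InU (b * r) := by
  constructor
  · intro c d; rw [Nuc.s3 hA hr.nuc, ← Nuc.s4 hA hr.nuc, hr.ann]
  · intro c d e
    have := Nuc.mid hA hr.nuc b (associator c d e)
    rw [associator, sub_eq_zero] at this
    rw [this, hr.ann, mul_zero]

lemma uel_mem (x y z : A) : InU (uel x y z) := by
  have hn : Nuc (nel x y) := fun a b => hA.nuc x y a b
  constructor
  · exact Nuc.mul (Nuc.cm hA hn z) (Nuc.cm hA hn z)
  · intro a b c
    exact Nuc.s7 hA hn hn z a b c

end InU

end IsAlt

end Pool.Agent.H68
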