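import Mathlib

set_option autoImplicit false

namespace Pool.Agent.H68.WL

/-- Duplicator has a winning strategy in the bijective pebble game with `k` pairs of pebbles on
the finite groups `G` and `H`. -/
def DuplicatorWins (k : ℕ) (G H : Type) [Group G] [Group H] : Prop :=
  ∃ R : (Fin k → Option G) → (Fin k → Option H) → Prop,
    R (fun _ => none) (fun _ => none) ∧
    ∀ a b, R a b →
      (∀ i, a i = none ↔ b i = none) ∧
      (∀ i j, (∃ x, a i = some x ∧ a j = some x) ↔ (∃ x, b i = some x ∧ b j = some x)) ∧
      (∀ i j l, (∃ x y, a i = some x ∧ a j = some y ∧ a l = some (x * y)) ↔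
                (∃ x y, b i = some x ∧ b j = some y ∧ b l = some (x * y))) ∧
      (∀ i, ∃ f : G ≃ H, ∀ g,
        R (Function.update a i (some g)) (Function.update b i (some (f g))))

/-- A strategy on total positions, with pebbles indexed by `J`. -/
structure Strat (J G H : Type) [DecidableEq J] [Group G] [Group H] where
  R : (J → G) → (J → H) → Prop
  one : R (fun _ => 1) (fun _ => 1)
  eq : ∀ α β, R α β → ∀ i j, (α i = α j ↔ β i = β j)
  mul : ∀ α β, R α β → ∀ i j l, (α i * α j = α l ↔ β i * β j = β l)
  move : ∀ α β, R α β → ∀ i, ∃ f : G ≃ H, ∀ g,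
    R (Function.update α i g) (Function.update β i (f g))

theorem strat_fin {k : ℕ} {G H : Type} [Group G] [Group H] (h : DuplicatorWins k G H) :
    Nonempty (Strat (Fin k) G H) := by
  classical
  obtain ⟨R, h0, hR⟩ := h
  have key : ∀ S : Finset (Fin k),
      R (fun i => if i ∈ S then some 1 else none) (fun i => if i ∈ S then some 1 else none) := by
    intro S
    induction S using Finset.induction_on with
    | empty => simpa using h0
    | insert a S ha ih =>
      obtain ⟨f, hf⟩ := (hR _ _ ih).2.2.2 a
      have h1 := hf 1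
      have hf1 : f 1 = 1 := by
        have h2 := ((hR _ _ h1).2.2.1 a a a).1 ⟨1, 1, by simp, by simp, by simp⟩
        obtain ⟨x, y, hx, hy, hxy⟩ := h2
        simp only [Function.update_self, Option.some.injEq] at hx hy hxy
        rw [← hx, ← hy] at hxy
        simpa using hxy
      rw [hf1] at h1
      convert h1 using 1
      · funext i
        by_cases hi : i = a
        · subst hi; simp
        · simp [hi]
      · funext i
        by_cases hi : i = a
        · subst hi; simp
        · simp [hi]
  refine ⟨⟨fun α β => R (fun i => some (α i)) (fun i => some (β i)), ?_, ?_, ?_, ?_⟩⟩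
  · simpa using key Finset.univ
  · intro α β h i j
    have := (hR _ _ h).2.1 i j
    simp only [Option.some.injEq] at this
    constructor
    · intro hij
      obtain ⟨x, h1, h2⟩ := this.1 ⟨α i, rfl, hij.symm⟩
      rw [h1, h2]
    · intro hij
      obtain ⟨x, h1, h2⟩ := this.2 ⟨β i, rfl, hij.symm⟩
      rw [h1, h2]
  · intro α β h i j l
    have := (hR _ _ h).2.2.1 i j l
    simp only [Option.some.injEq] at this
    constructor
    · intro hij
      obtain ⟨x, y, h1, h2, h3⟩ := this.1 ⟨α i, α j, rfl, rfl, hij.symm⟩
      rw [h1, h2, h3]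
    · intro hij
      obtain ⟨x, y, h1, h2, h3⟩ := this.2 ⟨β i, β j, rfl, rfl, hij.symm⟩
      rw [h1, h2, h3]
  · intro α β h i
    obtain ⟨f, hf⟩ := (hR _ _ h).2.2.2 i
    refine ⟨f, fun g => ?_⟩
    convert hf g using 1
    · funext j
      by_cases hj : j = i
      · subst hj; simp
      · simp [Function.update_of_ne hj]
    · funext j
      by_cases hj : j = i
      · subst hj; simp
      · simp [Function.update_of_ne hj]

theorem Strat.comap {J K G H : Type} [DecidableEq J] [DecidableEq K] [Group G] [Group H]
    (s : Strat K G H) (e : J ↪ K) : Nonempty (Strat J G H) := by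
  refine ⟨⟨fun α β => ∃ α' β', s.R α' β' ∧ α = α' ∘ e ∧ β = β' ∘ e, ?_, ?_, ?_, ?_⟩⟩
  · exact ⟨_, _, s.one, rfl, rfl⟩
  · rintro α β ⟨α', β', h, rfl, rfl⟩ i j
    exact s.eq _ _ h _ _
  · rintro α β ⟨α', β', h, rfl, rfl⟩ i j l
    exact s.mul _ _ h _ _ _
  · rintro α β ⟨α', β', h, rfl, rfl⟩ i
    obtain ⟨f, hf⟩ := s.move _ _ h (e i)
    refine ⟨f, fun g => ⟨_, _, hf g, ?_, ?_⟩⟩
    · exact (Function.update_comp_eq_of_injective _ e.injective i g).symm
    · exact (Function.update_comp_eq_of_injective _ e.injective i (f g)).symm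

section Params

variable {c : ℕ} {G H : Type} [Group G] [Group H]

theorem place_params (s : Strat (Fin c ⊕ Fin 4) G H) (p : Fin c → G) :
    ∃ q : Fin c → H, s.R (Sum.elim p (fun _ => 1)) (Sum.elim q (fun _ => 1)) := by
  classical
  have key : ∀ S : Finset (Fin c), ∃ q : Fin c → H,
      s.R (Sum.elim (fun i => if i ∈ S then p i else 1) (fun _ => 1))
        (Sum.elim q (fun _ => 1)) := by
    intro S
    induction S using Finset.induction_on with
    | empty =>
      refine ⟨fun _ => 1, ?_⟩
      convert s.one using 1
      · funext x; cases x <;> simp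
      · funext x; cases x <;> simp
    | insert a S ha ih =>
      obtain ⟨q, hq⟩ := ih
      obtain ⟨f, hf⟩ := s.move _ _ hq (Sum.inl a)
      refine ⟨Function.update q a (f (p a)), ?_⟩
      convert hf (p a) using 1
      · funext x
        rcases x with i | i
        · by_cases hi : i = a
          · subst hi; simp
          · simp [Function.update, hi]
        · simp [Function.update]
      · funext x
        rcases x with i | i
        · by_cases hi : i = a
          · subst hi; simp
          · simp [Function.update, hi]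
        · simp [Function.update]
  simpa using key Finset.univ

variable (s : Strat (Fin c ⊕ Fin 4) G H) (p : Fin c → G) (q : Fin c → H)

/-- Positions of the four free pebbles, the parameters staying on `p` and `q`. -/
def Good (α : Fin 4 → G) (β : Fin 4 → H) : Prop := s.R (Sum.elim p α) (Sum.elim q β)

/-- `u` and `u'` are pinned to each other. -/
def Pinned (u : G) (u' : H) : Prop :=
  ∀ α β, Good s p q α β → ∀ i, (α i = u ↔ β i = u')

variable {s p q}

theorem Good.move {α : Fin 4 → G} {β : Fin 4 → H} (h : Good s p q α β) (i : Fin 4) :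
    ∃ f : G ≃ H, ∀ g, Good s p q (Function.update α i g) (Function.update β i (f g)) := by
  obtain ⟨f, hf⟩ := s.move _ _ h (Sum.inr i)
  refine ⟨f, fun g => ?_⟩
  have := hf g
  rw [Sum.update_elim_inr, Sum.update_elim_inr] at this
  exact this

theorem Good.mul {α : Fin 4 → G} {β : Fin 4 → H} (h : Good s p q α β) (i j l : Fin 4) :
    (α i * α j = α l ↔ β i * β j = β l) :=
  s.mul _ _ h (Sum.inr i) (Sum.inr j) (Sum.inr l)

theorem Good.eq {α : Fin 4 → G} {β : Fin 4 → H} (h : Good s p q α β) (i j : Fin 4) :
    (α i = α j ↔ β i = β j) :=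
  s.eq _ _ h (Sum.inr i) (Sum.inr j)

theorem pinned_param (j : Fin c) : Pinned s p q (p j) (q j) := by
  intro α β h i
  exact s.eq _ _ h (Sum.inr i) (Sum.inl j)

theorem pinned_one : Pinned s p q 1 1 := by
  intro α β h i
  have := h.mul i i i
  simpa using this

theorem Pinned.place {u : G} {u' : H} (hu : Pinned s p q u u') {α : Fin 4 → G} {β : Fin 4 → H}
    (h : Good s p q α β) (i : Fin 4) :
    Good s p q (Function.update α i u) (Function.update β i u') := by
  obtain ⟨f, hf⟩ := h.move i
  have h1 := hf u
  have h2 := (hu _ _ h1 i).1 (by simp)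
  simp only [Function.update_self] at h2
  rw [h2] at h1
  exact h1

theorem exists_two_others (i : Fin 4) : ∃ j l : Fin 4, j ≠ i ∧ l ≠ i ∧ j ≠ l := by
  revert i; decide

theorem exists_three_others (i : Fin 4) :
    ∃ j l r : Fin 4, j ≠ i ∧ l ≠ i ∧ r ≠ i ∧ j ≠ l ∧ j ≠ r ∧ l ≠ r := by
  revert i; decide

theorem Pinned.mul {u v : G} {u' v' : H} (hu : Pinned s p q u u') (hv : Pinned s p q v v') :
    Pinned s p q (u * v) (u' * v') := by
  intro α β h i
  obtain ⟨j, l, hj, hl, hjl⟩ := exists_two_others i
  have h2 := hv.place (hu.place h j) l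
  have h3 := h2.mul j l i
  simp only [Function.update_self, Function.update_of_ne hjl, Function.update_of_ne hl.symm,
    Function.update_of_ne hj.symm] at h3
  constructor
  · intro hh; exact (h3.1 hh.symm).symm
  · intro hh; exact (h3.2 hh.symm).symm

theorem Pinned.inv {u : G} {u' : H} (hu : Pinned s p q u u') :
    Pinned s p q u⁻¹ u'⁻¹ := by
  intro α β h i
  obtain ⟨j, l, hj, hl, hjl⟩ := exists_two_others i
  have h2 := (pinned_one (s := s) (p := p) (q := q)).place (hu.place h j) l
  have h3 := h2.mul i j l
  simp only [Function.update_self, Function.update_of_ne hjl, Function.update_of_ne hl.symm,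
    Function.update_of_ne hj.symm] at h3
  rw [mul_eq_one_iff_eq_inv, mul_eq_one_iff_eq_inv] at h3
  exact h3

theorem Pinned.left_unique {u : G} {u' u'' : H} {α : Fin 4 → G} {β : Fin 4 → H}
    (h : Good s p q α β)
    (h1 : Pinned s p q u u') (h2 : Pinned s p q u u'') : u' = u'' := by
  have h3 := h1.place h 0
  have h4 := (h2 _ _ h3 0).1 (by simp)
  simpa using h4

theorem Pinned.right_unique {u v : G} {u' : H} {α : Fin 4 → G} {β : Fin 4 → H}
    (h : Good s p q α β)
    (h1 : Pinned s p q u u') (h2 : Pinned s p q v u') : u = v := by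
  have h3 := h1.place h 0
  have h4 := (h2 _ _ h3 0).2 (by simp)
  simpa using h4

/-- The elements of `closure (range p)` are pinned. -/
theorem exists_pinned {t : G} (ht : t ∈ Subgroup.closure (Set.range p)) :
    ∃ t' : H, Pinned s p q t t' := by
  induction ht using Subgroup.closure_induction with
  | mem x hx =>
    obtain ⟨j, rfl⟩ := hx
    exact ⟨q j, pinned_param j⟩
  | one => exact ⟨1, pinned_one⟩
  | mul x y _ _ hx hy =>
    obtain ⟨x', hx'⟩ := hx
    obtain ⟨y', hy'⟩ := hy
    exact ⟨x' * y', hx'.mul hy'⟩
  | inv x _ hx =>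
    obtain ⟨x', hx'⟩ := hx
    exact ⟨x'⁻¹, hx'.inv⟩

/-- Conjugation of pinned elements is respected. -/
theorem conj_pinned {α : Fin 4 → G} {β : Fin 4 → H} (h : Good s p q α β) (i : Fin 4)
    {t r : G} {t' r' : H} (ht : Pinned s p q t t') (hr : Pinned s p q r r')
    (e : α i * t = r * α i) : β i * t' = r' * β i := by
  obtain ⟨j, l, m, hj, hl, hm, hjl, hjm, hlm⟩ := exists_three_others i
  have h1 := hr.place (ht.place h j) l
  obtain ⟨f, hf⟩ := h1.move m
  have h2 := hf (α i * t)
  have a1 := h2.mul i j m
  have a2 := h2.mul l i m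
  simp only [Function.update_self, Function.update_of_ne hjl, Function.update_of_ne hl.symm,
    Function.update_of_ne hj.symm, Function.update_of_ne hm.symm, Function.update_of_ne hjm,
    Function.update_of_ne hlm] at a1 a2
  have b1 := a1.1 trivial
  have b2 := a2.1 e.symm
  rw [b1, b2]

end Params

/-- Main lemma on the game: if `G` has a normal subgroup with trivial centralizer generated by
`c` elements, then `c + 4` pebbles identify `G`. -/
theorem identify_of_gen {c : ℕ} {G H : Type} [Group G] [Group H]
    (s : Strat (Fin c ⊕ Fin 4) G H) (p : Fin c → G)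
    (hn : (Subgroup.closure (Set.range p)).Normal)
    (hc : ∀ g : G, (∀ t ∈ Subgroup.closure (Set.range p), g * t = t * g) → g = 1) :
    Nonempty (G ≃* H) := by
  classical
  obtain ⟨q, hq⟩ := place_params s p
  have base : Good s p q (fun _ => 1) (fun _ => 1) := hq
  have hex : ∀ t : G, t ∈ Subgroup.closure (Set.range p) → ∃ t' : H, Pinned s p q t t' :=
    fun t ht => exists_pinned ht
  choose! P hP using hex
  obtain ⟨θ, hθ⟩ := base.move 0
  -- conjugation
  have hconj : ∀ (α : Fin 4 → G) (β : Fin 4 → H), Good s p q α β → ∀ i,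
      ∀ t ∈ Subgroup.closure (Set.range p), β i * P t = P (α i * t * (α i)⁻¹) * β i := by
    intro α β h i t ht
    refine conj_pinned h i (hP t ht) (hP _ (hn.conj_mem t ht (α i))) ?_
    group
  have hinj : ∀ t ∈ Subgroup.closure (Set.range p), ∀ r ∈ Subgroup.closure (Set.range p),
      P t = P r → t = r := by
    intro t ht r hr h
    have h1 := hP t ht
    rw [h] at h1
    exact h1.right_unique base (hP r hr)
  have hcent : ∀ c' : H, (∀ t ∈ Subgroup.closure (Set.range p), c' * P t = P t * c') →
      c' = 1 := by
    intro c' hc'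
    have h0 := hθ (θ.symm c')
    set a := θ.symm c' with ha
    have hθa : θ a = c' := by simp [ha]
    rw [hθa] at h0
    have ha1 : a = 1 := by
      apply hc
      intro t ht
      have h1 := hconj _ _ h0 0 t ht
      simp only [Function.update_self] at h1
      rw [hc' t ht] at h1
      have h2 := mul_right_cancel h1
      have h3 := hinj t ht _ (hn.conj_mem t ht a) h2
      calc a * t = (a * t * a⁻¹) * a := by group
        _ = t * a := by rw [← h3]
    have h4 := (pinned_one _ _ h0 0).1 (by simp [ha1])
    simpa using h4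
  have hpin : ∀ g : G, Pinned s p q g (θ g) := by
    intro g α β h i
    have hg := hθ g
    have hg' : ∀ t ∈ Subgroup.closure (Set.range p),
        θ g * P t = P (g * t * g⁻¹) * θ g := by
      intro t ht
      have := hconj _ _ hg 0 t ht
      simpa using this
    constructor
    · intro hi
      have : (θ g)⁻¹ * β i = 1 := by
        apply hcent
        intro t ht
        have h1 := hconj _ _ h i t ht
        rw [hi] at h1
        have h2 := hg' t ht
        have h3 : P t = (θ g)⁻¹ * P (g * t * g⁻¹) * θ g := by
          rw [mul_assoc, ← h2]; group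
        calc (θ g)⁻¹ * β i * P t = (θ g)⁻¹ * (β i * P t) := by group
          _ = (θ g)⁻¹ * (P (g * t * g⁻¹) * β i) := by rw [h1]
          _ = ((θ g)⁻¹ * P (g * t * g⁻¹) * θ g) * ((θ g)⁻¹ * β i) := by group
          _ = P t * ((θ g)⁻¹ * β i) := by rw [← h3]
      exact (inv_mul_eq_one.1 this).symm
    · intro hi
      have : g⁻¹ * α i = 1 := by
        apply hc
        intro t ht
        have h1 := hconj _ _ h i t ht
        rw [hi, hg' t ht] at h1
        have h2 := mul_right_cancel h1
        have h3 := hinj _ (hn.conj_mem t ht g) _ (hn.conj_mem t ht (α i)) h2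
        calc g⁻¹ * α i * t = g⁻¹ * (α i * t * (α i)⁻¹) * α i := by group
          _ = g⁻¹ * (g * t * g⁻¹) * α i := by rw [h3]
          _ = t * (g⁻¹ * α i) := by group
      exact (inv_mul_eq_one.1 this).symm
  refine ⟨MulEquiv.mk θ ?_⟩
  intro x y
  exact (hpin (x * y)).left_unique base ((hpin x).mul (hpin y))

/-- If `G` has a normal subgroup `N` with trivial centralizer which is generated by `c` elements,
then for `k ≥ c + 4` the bijective `k`-pebble game tells `G` apart from every non-isomorphic
group. -/
theorem identify_of_gen_fin {c k : ℕ} (hk : c + 4 ≤ k) {G H : Type} [Group G] [Group H]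
    (hD : DuplicatorWins k G H) (p : Fin c → G)
    (hn : (Subgroup.closure (Set.range p)).Normal)
    (hc : ∀ g : G, (∀ t ∈ Subgroup.closure (Set.range p), g * t = t * g) → g = 1) :
    Nonempty (G ≃* H) := by
  obtain ⟨s⟩ := strat_fin hD
  have e : Fin c ⊕ Fin 4 ↪ Fin k :=
    (finSumFinEquiv (m := c) (n := 4)).toEmbedding.trans (Fin.castLEEmb hk)
  obtain ⟨s'⟩ := s.comap e
  exact identify_of_gen s' p hn hc

end Pool.Agent.H68.WL
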